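import Pool.Agent.Lib.helper4.CXPsp

/-! Quantified Boolean formulas in prenex conjunctive normal form are PSPACE-hard. -/

namespace Pool.Agent.Lib.CX

open Function

section
variable {W W' : Type} [DecidableEq W] [DecidableEq W']

/-- value of a quantifier list (`true` = for all) over the matrix `Φ` under the assignment `σ` -/
def QN (Φ : (W → Bool) → Prop) : List (Bool × W) → (W → Bool) → Prop
  | [], σ => Φ σ
  | q :: t, σ => if q.1 = true then ∀ β, QN Φ t (update σ q.2 β) else ∃ β, QN Φ t (update σ q.2 β)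

def CSat (cl : List (List (W × Bool))) (σ : W → Bool) : Prop := ∀ C ∈ cl, ∃ l ∈ C, σ l.1 = l.2

theorem QN_ex (Φ : (W → Bool) → Prop) (r : List (Bool × W)) (ws : List W) : ∀ σ,
    QN Φ (ws.map (fun w => (false, w)) ++ r) σ ↔ ∃ τ, (∀ w ∉ ws, τ w = σ w) ∧ QN Φ r τ := by
  induction ws with
  | nil => exact fun σ => ⟨fun h => ⟨σ, fun _ _ => rfl, h⟩, fun ⟨τ, h, k⟩ => by rwa [← funext fun w => h w (by simp)]⟩
  | cons x ws ih =>
    intro σ
    simp only [List.map_cons, List.cons_append, QN, Bool.false_eq_true, if_false, ih]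
    constructor
    · rintro ⟨β, τ, h, k⟩
      exact ⟨τ, fun w hw => by
        simp only [List.mem_cons, not_or] at hw
        rw [h w hw.2, update_of_ne hw.1], k⟩
    · rintro ⟨τ, h, k⟩
      refine ⟨τ x, τ, fun w hw => ?_, k⟩
      by_cases e : w = x
      · simp [e]
      · rw [update_of_ne e, h w (by simp [e, hw])]

theorem QN_map {Φ : (W → Bool) → Prop} {Φ' : (W' → Bool) → Prop} {P : W → Prop} {f : W → W'}
    (hf : ∀ x y, P x → P y → f x = f y → x = y) (h : ∀ σ σ', (∀ w, P w → σ w = σ' (f w)) → (Φ σ ↔ Φ' σ'))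
    (t : List (Bool × W)) (ht : ∀ q ∈ t, P q.2) : ∀ σ σ', (∀ w, P w → σ w = σ' (f w)) →
      (QN Φ t σ ↔ QN Φ' (t.map fun q => (q.1, f q.2)) σ') := by
  induction t with
  | nil => exact h
  | cons q t ih =>
    intro σ σ' e
    have : ∀ β, QN Φ t (update σ q.2 β) ↔ QN Φ' (t.map fun q => (q.1, f q.2)) (update σ' (f q.2) β) := fun β =>
      ih (fun r hr => ht r (by simp [hr])) _ _ fun w hw => by
        by_cases k : w = q.2
        · simp [k]
        · rw [update_of_ne k, update_of_ne fun k' => k (hf _ _ hw (ht q (by simp)) k'), e w hw]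
    simp only [List.map_cons, QN, this]

end

/-- variable `i` is bound by the `i`-th quantifier -/
def QBF (a : List Bool × List (List (ℕ × Bool))) : Prop := QN (CSat a.2) a.1.zipIdx fun _ => false

def Sq {T : Type} (E : T → T → Prop) : ℕ → T → T → Prop
  | 0 => E
  | k + 1 => fun x y => ∃ z, Sq E k x z ∧ Sq E k z y

def Rk {T : Type} (E : T → T → Prop) : ℕ → T → T → Prop
  | 0 => Eq
  | k + 1 => fun x y => ∃ z, Rk E k x z ∧ E z y

theorem sq_iff {T : Type} [Fintype T] {E : T → T → Prop} (hE : ∀ x, E x x) {K : ℕ} (hK : Fintype.card T ≤ 2 ^ K)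
    (x y : T) : Sq E K x y ↔ Relation.ReflTransGen E x y := by
  classical
  constructor
  · clear hK
    induction K generalizing x y with
    | zero => exact .single
    | succ k ih => exact fun ⟨z, h1, h2⟩ => (ih _ _ h1).trans (ih _ _ h2)
  intro h
  let R := Rk E
  have ad : ∀ k l x y, R (k + l) x y → ∃ z, R k x z ∧ R l z y := fun k l => by
    induction l with
    | zero => exact fun x y h => ⟨y, h, rfl⟩
    | succ l ih =>
      rintro x y ⟨z, h1, h2⟩
      obtain ⟨w, h3, h4⟩ := ih x z h1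
      exact ⟨w, h3, z, h4, h2⟩
  have sq : ∀ k x y, R (2 ^ k) x y → Sq E k x y := fun k => by
    induction k with
    | zero => rintro x y ⟨z, rfl, h⟩; exact h
    | succ k ih =>
      intro x y h
      rw [pow_succ, mul_two] at h
      obtain ⟨z, h1, h2⟩ := ad _ _ _ _ h
      exact ⟨z, ih _ _ h1, ih _ _ h2⟩
  have gr : ∀ k : ℕ, (∀ y, R (k + 1) x y → R k x y) ∨ k < (@Finset.filter _ (R k x) (Classical.decPred _) Finset.univ).card := fun k => by
    induction k with
    | zero => exact .inr (Finset.card_pos.2 ⟨x, by simp [R, Rk]⟩)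
    | succ k ih =>
      by_cases h : ∀ y, R (k + 1) x y → R k x y
      · exact .inl fun y ⟨z, h1, h2⟩ => ⟨z, h z h1, h2⟩
      · refine .inr (lt_of_le_of_lt (ih.resolve_left h) (Finset.card_lt_card ⟨fun y hy => ?_, fun s => h fun y hy => ?_⟩))
        · simp only [Finset.mem_filter, Finset.mem_univ, true_and] at hy ⊢
          exact ⟨y, hy, hE y⟩
        · simpa using @s y (by simpa using hy)
  have st := (gr (2 ^ K)).resolve_right (by have := Finset.card_le_univ (@Finset.filter _ (R (2 ^ K) x) (Classical.decPred _) Finset.univ); omega)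
  refine sq _ _ _ ?_
  induction h with
  | refl =>
    generalize 2 ^ K = k
    induction k with
    | zero => rfl
    | succ k ih => exact ⟨x, ih, hE x⟩
  | tail _ h ih => exact st _ ⟨_, ih, h⟩

abbrev QW := ℕ × ℕ × ℕ

def qblk (N k j : ℕ) : List (Bool × QW) := ((List.range N).map fun i => (k, j, i)).map fun w => (false, w)
def qlev (N j : ℕ) : List (Bool × QW) := qblk N 2 j ++ (true, 3, j, 0) :: (qblk N 0 j ++ qblk N 1 j)
def qpre (N j : ℕ) : List (Bool × QW) := (List.range j).reverse.flatMap (qlev N) ++ [(false, 4, 0, 0)]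
def qeq (g : QW × Bool) (x y : QW) : List (List (QW × Bool)) := [[g, (x, false), (y, true)], [g, (x, true), (y, false)]]
def qcl (N j : ℕ) : List (List (QW × Bool)) := (List.range N).flatMap fun i =>
  qeq ((3, j, 0), false) (0, j, i) (2, j, i) ++ qeq ((3, j, 0), true) (0, j, i) (0, j + 1, i) ++
    qeq ((3, j, 0), false) (1, j, i) (1, j + 1, i) ++ qeq ((3, j, 0), true) (1, j, i) (2, j, i)

theorem qpre_succ (N j : ℕ) : qpre N (j + 1) = qlev N j ++ qpre N j := by simp [qpre, List.range_succ]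

theorem csat_qeq (g : QW × Bool) (x y : QW) (σ : QW → Bool) : CSat (qeq g x y) σ ↔ σ g.1 = g.2 ∨ σ x = σ y := by
  simp only [CSat, qeq, List.forall_mem_cons]
  simp only [List.mem_cons, List.not_mem_nil, exists_eq_or_imp]
  cases σ x <;> cases σ y <;> simp

theorem csat_append {W : Type} (a b : List (List (W × Bool))) (σ : W → Bool) : CSat (a ++ b) σ ↔ CSat a σ ∧ CSat b σ :=
  List.forall_mem_append

theorem csat_flat {W γ : Type} (l : List γ) (f : γ → List (List (W × Bool))) (σ : W → Bool) :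
    CSat (l.flatMap f) σ ↔ ∀ x ∈ l, CSat (f x) σ := List.forall_mem_flatMap

def cfg (N : ℕ) (σ : QW → Bool) (k j : ℕ) : Fin N → Bool := fun i => σ (k, j, i)

theorem csat_qcl (N j : ℕ) (σ : QW → Bool) : CSat (qcl N j) σ ↔
    cfg N σ 0 j = (if σ (3, j, 0) = true then cfg N σ 2 j else cfg N σ 0 (j + 1)) ∧
    cfg N σ 1 j = (if σ (3, j, 0) = true then cfg N σ 1 (j + 1) else cfg N σ 2 j) := by
  simp only [qcl, csat_flat, csat_append, csat_qeq, funext_iff, List.mem_range, Fin.forall_iff, ← forall_and]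
  cases σ (3, j, 0) <;> simp [cfg, Fin.forall_iff, forall_and]

theorem QN_blk (Φ : (QW → Bool) → Prop) (r : List (Bool × QW)) (N k j : ℕ) (σ : QW → Bool) :
    QN Φ (qblk N k j ++ r) σ ↔ ∃ t : Fin N → Bool,
      QN Φ r fun w => if h : w.1 = k ∧ w.2.1 = j ∧ w.2.2 < N then t ⟨w.2.2, h.2.2⟩ else σ w := by
  rw [qblk, QN_ex]
  constructor
  · rintro ⟨τ, h, e⟩
    refine ⟨cfg N τ k j, ?_⟩
    convert e using 1
    funext ⟨a, b, c⟩
    split_ifs with q
    · obtain ⟨rfl, rfl, -⟩ := q; rfl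
    · exact (h _ (by simpa [and_comm, and_assoc, eq_comm] using q)).symm
  · rintro ⟨t, e⟩
    refine ⟨_, fun ⟨a, b, c⟩ hw => dif_neg ?_, e⟩
    simpa [and_comm, and_assoc, eq_comm] using hw

theorem qn_main {N : ℕ} {E : (Fin N → Bool) → (Fin N → Bool) → Prop} {B : (QW → Bool) → Prop}
    (hB : ∀ σ, (∃ β, B (update σ (4, 0, 0) β)) ↔ E (cfg N σ 0 0) (cfg N σ 1 0)) (j : ℕ) :
    ∀ (H : (QW → Bool) → Prop), (∀ σ τ, (∀ w : QW, w.1 ≠ 4 → j ≤ w.2.1 → τ w = σ w) → (H τ ↔ H σ)) → ∀ σ,
      QN (fun σ => H σ ∧ (∀ i < j, CSat (qcl N i) σ) ∧ B σ) (qpre N j) σ ↔ H σ ∧ Sq E j (cfg N σ 0 j) (cfg N σ 1 j) := by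
  induction j with
  | zero =>
    intro H hH σ
    have : ∀ β, H (update σ (4, 0, 0) β) ↔ H σ := fun β => hH _ _ fun w h _ => update_of_ne (by rintro rfl; simp at h) ..
    simp [qpre, QN, Sq, ← hB, this]
  | succ j ih =>
    intro H hH σ
    have e : (fun σ => H σ ∧ (∀ i < j + 1, CSat (qcl N i) σ) ∧ B σ) =
        fun σ => (H σ ∧ CSat (qcl N j) σ) ∧ (∀ i < j, CSat (qcl N i) σ) ∧ B σ := by
      funext σ
      simp only [Nat.forall_lt_succ_right, eq_iff_iff]
      tauto
    have ih' := ih (fun σ => H σ ∧ CSat (qcl N j) σ) fun σ τ h => by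
      have c : ∀ k l, k ≠ 4 → j ≤ l → cfg N τ k l = cfg N σ k l := fun k l h1 h2 => funext fun i => h _ h1 h2
      simp only [csat_qcl, c 0 j (by simp) le_rfl, c 1 j (by simp) le_rfl, c 2 j (by simp) le_rfl,
        c 0 (j + 1) (by simp) (by simp), c 1 (j + 1) (by simp) (by simp), h (3, j, 0) (by simp) le_rfl,
        hH σ τ fun w h1 h2 => h w h1 (by omega)]
    rw [e, qpre_succ, qlev, List.append_assoc, QN_blk]
    simp only [List.cons_append, QN, if_true, List.append_assoc, QN_blk, ih']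
    simp only [csat_qcl]
    have hH' : ∀ τ, (∀ w : QW, j + 1 ≤ w.2.1 → τ w = σ w) → (H τ ↔ H σ) := fun τ h => hH σ τ fun w _ => h w
    have k : ∀ (m a b : Fin N → Bool) (β : Bool) (τ : QW → Bool), τ = (fun w => if h : w.1 = 1 ∧ w.2.1 = j ∧ w.2.2 < N
        then b ⟨w.2.2, h.2.2⟩ else if h : w.1 = 0 ∧ w.2.1 = j ∧ w.2.2 < N then a ⟨w.2.2, h.2.2⟩ else
          update (fun w : QW => if h : w.1 = 2 ∧ w.2.1 = j ∧ w.2.2 < N then m ⟨w.2.2, h.2.2⟩ else σ w) (3, j, 0) β w) →
        (H τ ↔ H σ) ∧ cfg N τ 0 j = a ∧ cfg N τ 1 j = b ∧ cfg N τ 2 j = m ∧ τ (3, j, 0) = β ∧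
          cfg N τ 0 (j + 1) = cfg N σ 0 (j + 1) ∧ cfg N τ 1 (j + 1) = cfg N σ 1 (j + 1) := by
      rintro m a b β _ rfl
      refine ⟨hH' _ fun ⟨x, y, z⟩ h => ?_, ?_⟩
      · have : y ≠ j := by simp only at h; omega
        simp [this]
      · simp [funext_iff, cfg]
    simp only [k _ _ _ _ _ rfl, Sq]
    simp only [Nat.reduceEqDiff, false_and, dite_false, update_self, OfNat.ofNat_ne_zero]
    constructor
    · rintro ⟨m, h⟩
      obtain ⟨_, _, ⟨h1, e1, e2⟩, h2⟩ := h false
      obtain ⟨_, _, ⟨-, e3, e4⟩, h3⟩ := h true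
      exact ⟨h1, m, by rwa [e1, e2] at h2, by rwa [e3, e4] at h3⟩
    · rintro ⟨h, m, h1, h2⟩
      exact ⟨m, fun β => ⟨_, _, ⟨h, rfl, rfl⟩, by cases β <;> assumption⟩⟩

variable {V : Type} [DecidableEq V]

def qlit (xs : List V) (l : (Bool × V) × Bool) : QW × Bool := ((if l.1.1 = true then 1 else 0, 0, xs.idxOf l.1.2), l.2)

def qall (a : List (Cl3 (Bool × V)) × List V × V) : List (Bool × QW) :=
  qblk (rvars a).length 0 (rvars a).length ++ (qblk (rvars a).length 1 (rvars a).length ++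
    qpre (rvars a).length (rvars a).length)

def qtop (a : List (Cl3 (Bool × V)) × List V × V) : List (List (QW × Bool)) :=
  [((1, (rvars a).length, (rvars a).idxOf a.2.2), true)] :: (List.range (rvars a).length).map fun i =>
    [((0, (rvars a).length, i), decide ((rvars a).getD i a.2.2 ∈ a.2.1))]

def qbase (a : List (Cl3 (Bool × V)) × List V × V) : List (List (QW × Bool)) :=
  ((List.range (rvars a).length).flatMap fun i => qeq ((4, 0, 0), false) (0, 0, i) (1, 0, i)) ++
    a.1.map fun C => [((4, 0, 0), true), qlit (rvars a) C.1, qlit (rvars a) C.2.1, qlit (rvars a) C.2.2]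

def qmat (a : List (Cl3 (Bool × V)) × List V × V) : List (List (QW × Bool)) :=
  qtop a ++ ((List.range (rvars a).length).flatMap (qcl (rvars a).length) ++ qbase a)

theorem qall_iff (a : List (Cl3 (Bool × V)) × List V × V) : Reach3 a ↔ QN (CSat (qmat a)) (qall a) fun _ => false := by
  set xs := rvars a with hxs
  set N := xs.length
  let F : (Fin N → Bool) → V → Bool := fun t x => if h : xs.idxOf x < N then t ⟨_, h⟩ else false
  let G : (V → Bool) → Fin N → Bool := fun u i => u xs[i]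
  have mx : ∀ x, x ∈ xs ↔ x = a.2.2 ∨ ∃ C ∈ a.1, x = C.1.1.2 ∨ x = C.2.1.1.2 ∨ x = C.2.2.1.2 := fun x => by
    simp [hxs, rvars]
  have FG : ∀ u, ∀ x ∈ xs, F (G u) x = u x := fun u x hx => by
    simp [F, G, N, List.idxOf_lt_length_of_mem hx]
  have GF : ∀ t, G (F t) = t := fun t => funext fun i => by
    simp [F, G, N, (show xs.Nodup from List.nodup_dedup _).idxOf_getElem]
  have cg : ∀ u v u' v' : V → Bool, (∀ x ∈ xs, u x = u' x) → (∀ x ∈ xs, v x = v' x) → Rel3 a.1 u v → Rel3 a.1 u' v' :=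
    fun u v u' v' h1 h2 h C hC => by
      have k := h C hC
      have m1 := (mx _).2 (.inr ⟨C, hC, .inl rfl⟩)
      have m2 := (mx _).2 (.inr ⟨C, hC, .inr (.inl rfl)⟩)
      have m3 := (mx _).2 (.inr ⟨C, hC, .inr (.inr rfl)⟩)
      simpa only [Cl3.ok, h1 _ m1, h1 _ m2, h1 _ m3, h2 _ m1, h2 _ m2, h2 _ m3] using k
  let E : (Fin N → Bool) → (Fin N → Bool) → Prop := fun s t => s = t ∨ Rel3 a.1 (F s) (F t)
  have e : CSat (qmat a) = fun σ => CSat (qtop a) σ ∧ (∀ i < N, CSat (qcl N i) σ) ∧ CSat (qbase a) σ := by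
    funext σ
    simp only [qmat, csat_append, csat_flat, List.mem_range, ← hxs, N]
  have top : ∀ σ, CSat (qtop a) σ ↔ F (cfg N σ 1 N) a.2.2 = true ∧ cfg N σ 0 N = G fun x => decide (x ∈ a.2.1) := fun σ => by
    have := List.idxOf_lt_length_of_mem ((mx _).2 (.inl rfl))
    simp only [CSat, qtop, List.forall_mem_cons, List.forall_mem_map, List.mem_range, funext_iff, Fin.forall_iff, ← hxs]
    refine and_congr (by simp [F, N, this, cfg]) (forall₂_congr fun i hi => by simp [cfg, G, hi, N])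
  have hB : ∀ σ, (∃ β, CSat (qbase a) (update σ (4, 0, 0) β)) ↔ E (cfg N σ 0 0) (cfg N σ 1 0) := fun σ => by
    have l : ∀ β, ∀ l : (Bool × V) × Bool, l.1.2 ∈ xs → update σ (4, 0, 0) β (qlit xs l).1 =
        if l.1.1 = true then F (cfg N σ 1 0) l.1.2 else F (cfg N σ 0 0) l.1.2 := fun β l hl => by
      have := List.idxOf_lt_length_of_mem hl
      cases h : l.1.1 <;> simp [qlit, h, F, N, this, cfg]
    have r : ∀ β, CSat (a.1.map fun C => [((4, 0, 0), true), qlit xs C.1, qlit xs C.2.1, qlit xs C.2.2])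
        (update σ (4, 0, 0) β) ↔ β = true ∨ Rel3 a.1 (F (cfg N σ 0 0)) (F (cfg N σ 1 0)) := fun β => by
      cases β
      · simp only [CSat, List.forall_mem_map, Rel3, Bool.false_eq_true, false_or]
        refine forall₂_congr fun C hC => ?_
        have m1 := l false C.1 ((mx _).2 (.inr ⟨C, hC, .inl rfl⟩))
        have m2 := l false C.2.1 ((mx _).2 (.inr ⟨C, hC, .inr (.inl rfl)⟩))
        have m3 := l false C.2.2 ((mx _).2 (.inr ⟨C, hC, .inr (.inr rfl)⟩))
        simp only [List.mem_cons, List.not_mem_nil, exists_eq_or_imp, m1, m2, m3, Cl3.ok]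
        simp [qlit]
      · simp only [CSat, List.forall_mem_map, true_or, iff_true]
        exact fun C _ => ⟨_, List.mem_cons_self, by simp⟩
    simp only [qbase, csat_append, csat_flat, csat_qeq, ← hxs, r, Bool.exists_bool, E, funext_iff, Fin.forall_iff, cfg]
    simp [or_comm, N]
  have mn := qn_main hB N (CSat (qtop a)) fun σ τ h => by
    have c : ∀ k, k ≠ 4 → cfg N τ k N = cfg N σ k N := fun k h1 => funext fun i => h _ h1 le_rfl
    simp only [top, c 0 (by simp), c 1 (by simp)]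
  have k : ∀ (s t : Fin N → Bool) (τ : QW → Bool), τ = (fun w => if h : w.1 = 1 ∧ w.2.1 = N ∧ w.2.2 < N
      then t ⟨w.2.2, h.2.2⟩ else if h : w.1 = 0 ∧ w.2.1 = N ∧ w.2.2 < N then s ⟨w.2.2, h.2.2⟩ else false) →
      cfg N τ 0 N = s ∧ cfg N τ 1 N = t := by
    rintro s t _ rfl
    simp [funext_iff, cfg]
  rw [e, qall, ← hxs]
  change _ ↔ QN _ (qblk N 0 N ++ (qblk N 1 N ++ qpre N N)) _
  simp only [QN_blk, mn]
  simp only [top, k _ _ _ rfl, sq_iff (E := E) (fun _ => .inl rfl) (K := N) (by simp)]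
  constructor
  · rintro ⟨u, v, h1, h2, h3⟩
    have hu : u = fun x => decide (x ∈ a.2.1) := funext fun x => by rw [Bool.eq_iff_iff, h1, decide_eq_true_iff]
    refine ⟨G u, G v, ⟨by rwa [FG _ _ ((mx _).2 (.inl rfl))], congrArg G hu⟩, ?_⟩
    exact h2.lift G fun u v h => .inr (cg _ _ _ _ (fun x hx => (FG _ x hx).symm) (fun x hx => (FG _ x hx).symm) h)
  · rintro ⟨_, t, ⟨h1, rfl⟩, h2⟩
    have : ∃ v, Relation.ReflTransGen (Rel3 a.1) (fun x => decide (x ∈ a.2.1)) v ∧ G v = t := by
      clear h1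
      induction h2 with
      | refl => exact ⟨_, .refl, rfl⟩
      | tail _ h ih =>
        obtain ⟨v, h3, rfl⟩ := ih
        rcases h with rfl | h
        · exact ⟨v, h3, rfl⟩
        · exact ⟨_, h3.tail (cg _ _ _ _ (FG v) (fun _ _ => rfl) h), GF _⟩
    obtain ⟨v, h3, rfl⟩ := this
    exact ⟨_, v, by simp, h3, by rwa [FG _ _ ((mx _).2 (.inl rfl))] at h1⟩

theorem mem_qblk (N k j : ℕ) (w : QW) : w ∈ (qblk N k j).map Prod.snd ↔ w.1 = k ∧ w.2.1 = j ∧ w.2.2 < N := by
  obtain ⟨a, b, c⟩ := w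
  simp [qblk, and_comm, and_assoc, eq_comm]

theorem nd_qblk (N k j : ℕ) : ((qblk N k j).map Prod.snd).Nodup := by
  simp only [qblk, List.map_map]
  exact List.nodup_range.map fun i j h => by simpa using h

theorem qpre_spec (N j : ℕ) : ((qpre N j).map Prod.snd).Nodup ∧ ∀ w, w ∈ (qpre N j).map Prod.snd ↔
    w = (4, 0, 0) ∨ w.2.1 < j ∧ (w.1 < 3 ∧ w.2.2 < N ∨ w.1 = 3 ∧ w.2.2 = 0) := by
  induction j with
  | zero => simp [qpre]
  | succ j ih =>
    simp only [qpre_succ, qlev, List.map_append, List.map_cons, List.nodup_append, List.nodup_cons, nd_qblk, ih.1,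
      List.mem_append, List.mem_cons, mem_qblk, ih.2, Prod.ext_iff, ne_eq, true_and]
    refine ⟨⟨⟨⟨by omega, fun a h b h' => by omega⟩, fun a h b h' => by omega⟩, fun a h b h' => by omega⟩,
      fun w => by omega⟩

def qnum (a : List (Cl3 (Bool × V)) × List V × V) : List Bool × List (List (ℕ × Bool)) :=
  ((qall a).map Prod.fst, (qmat a).map fun C => C.map fun l => (((qall a).map Prod.snd).idxOf l.1, l.2))

theorem PT.qnum [Enc V] : PT (qnum (V := V)) := by
  have h1 : PT (rvars (V := V)) := by unfold rvars; fun_prop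
  have h2 : PT (qall (V := V)) := by unfold qall qpre qlev qblk; fun_prop
  have h3 : PT (qtop (V := V)) := by unfold qtop; fun_prop
  have h4 : PT (qbase (V := V)) := by unfold qbase qeq qlit; fun_prop
  have h5 : PT (qmat (V := V)) := by unfold qmat qcl qeq; fun_prop
  unfold CX.qnum; fun_prop

theorem qnum_spec (a : List (Cl3 (Bool × V)) × List V × V) :
    (∀ C ∈ (qnum a).2, ∀ l ∈ C, l.1 < (qnum a).1.length) ∧ (Reach3 a ↔ QBF (qnum a)) := by
  have sp := qpre_spec (rvars a).length (rvars a).length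
  have mem : ∀ w, w ∈ (qall a).map Prod.snd ↔ w = (4, 0, 0) ∨ w.2.1 < (rvars a).length ∧
      (w.1 < 3 ∧ w.2.2 < (rvars a).length ∨ w.1 = 3 ∧ w.2.2 = 0) ∨
        w.1 < 2 ∧ w.2.1 = (rvars a).length ∧ w.2.2 < (rvars a).length := fun w => by
    simp only [qall, List.map_append, List.mem_append, mem_qblk, sp.2, Prod.ext_iff]
    omega
  have nd : ((qall a).map Prod.snd).Nodup := by
    simp only [qall, List.map_append, List.nodup_append, nd_qblk, sp.1, List.mem_append, mem_qblk, sp.2, Prod.ext_iff,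
      ne_eq, true_and]
    exact ⟨fun a h b h' => by omega, fun a h b h' => by omega⟩
  have ix : ∀ x, (x = a.2.2 ∨ ∃ C ∈ a.1, x = C.1.1.2 ∨ x = C.2.1.1.2 ∨ x = C.2.2.1.2) →
      (rvars a).idxOf x < (rvars a).length := fun x hx => List.idxOf_lt_length_of_mem (by simpa [rvars] using hx)
  have vs : ∀ C ∈ qmat a, ∀ l ∈ C, l.1 ∈ (qall a).map Prod.snd := by
    have := ix _ (.inl rfl)
    have q : ∀ l : (Bool × V) × Bool, (rvars a).idxOf l.1.2 < (rvars a).length →
        (qlit (rvars a) l).1 ∈ (qall a).map Prod.snd := fun l h => by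
      rw [mem]
      simp only [qlit, Prod.ext_iff]
      split_ifs <;> omega
    simp only [qmat, qtop, qbase, qcl, qeq, List.forall_mem_append, List.forall_mem_cons, List.forall_mem_map,
      List.forall_mem_flatMap, List.mem_range]
    simp only [List.not_mem_nil, false_imp_iff, implies_true, and_true]
    refine ⟨⟨?_, fun i hi => ?_⟩, fun j hj i hi => ?_, fun i hi => ?_, fun C hC => ⟨?_, q _ (ix _ (.inr ⟨C, hC, .inl rfl⟩)),
      q _ (ix _ (.inr ⟨C, hC, .inr (.inl rfl)⟩)), q _ (ix _ (.inr ⟨C, hC, .inr (.inr rfl)⟩))⟩⟩ <;>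
      simp [mem, *] <;> omega
  refine ⟨?_, (qall_iff a).trans ?_⟩
  · simp only [qnum, List.forall_mem_map]
    exact fun C hC l hl => by simpa using List.idxOf_lt_length_of_mem (vs C hC l hl)
  · have e : (qnum a).1.zipIdx = (qall a).map fun q => (q.1, ((qall a).map Prod.snd).idxOf q.2) := by
      refine List.ext_getElem (by simp [qnum]) fun i h1 h2 => ?_
      have := nd.idxOf_getElem i (by simpa using h2)
      simp only [List.getElem_map] at this
      simp [qnum, this]
    rw [QBF, e]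
    refine QN_map (P := fun w => w ∈ (qall a).map Prod.snd) (fun x y hx _ h => (List.idxOf_inj hx).1 h)
      (fun σ σ' h => ?_) _ (fun q hq => List.mem_map_of_mem hq) _ _ fun _ _ => rfl
    simp only [CSat, qnum, List.forall_mem_map]
    simp only [List.mem_map, exists_exists_and_eq_and]
    exact forall₂_congr fun C hC => exists_congr fun l => and_congr_right fun hl => by rw [h _ (vs C hC l hl)]

/-- PSPACE-hardness of `B` (`b = true`) or of its complement (`b = false`) by a reduction from `QBF` -/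
theorem PSPACEHard.of_qbf {β : Type} [Enc β] {B : β → Prop} (b : Bool) (f : List Bool × List (List (ℕ × Bool)) → β)
    (hf : PT f) (h : ∀ a, (∀ C ∈ a.2, ∀ l ∈ C, l.1 < a.1.length) → (QBF a ↔ (B (f a) ↔ b = true))) : PSPACEHard B := by
  rintro A ⟨g, hg, e⟩
  obtain ⟨r, hr, e'⟩ := reach_red hg b
  refine ⟨fun a => f (qnum (r a)), hf.comp (PT.qnum.comp hr), fun a => ?_⟩
  have := (e' a).trans ((qnum_spec _).2.trans (h _ (qnum_spec _).1))
  rw [e]
  beta_reduce at this
  revert this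
  cases g a <;> cases b <;> simp

end Pool.Agent.Lib.CX
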