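import Pool.Agent.Lib.helper15.QBF
import Pool.Agent.Lib.helper4.CXGame

/-! Bipartite vertex geography with two entry slots per vertex simulates quantified Boolean formulas. -/

namespace Pool.Agent.Lib.CX

open Function

theorem win_rec {P : Type} {M : P → P → Prop} (ρ : P → ℕ) (h : ∀ p q, M p q → ρ q < ρ p) (p : P) :
    Win M p ↔ ∃ q, M p q ∧ ¬ Win M q := by
  have det : ∀ n p, ρ p < n → Win M p ∨ Lose M p := fun n => by
    induction n with
    | zero => simp
    | succ n ih =>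
      intro p hp
      by_cases e : ∃ q, M p q ∧ Lose M q
      · obtain ⟨q, h1, h2⟩ := e
        exact .inl (.mk q h1 h2)
      · exact .inr fun q hq => (ih q (by have := h p q hq; omega)).resolve_right fun l => e ⟨q, hq, l⟩
  exact ⟨fun ⟨q, h1, h2⟩ => ⟨q, h1, fun w => w.not_lose h2⟩,
    fun ⟨q, h1, h2⟩ => .mk q h1 ((det _ q (Nat.lt_succ_self _)).resolve_left h2)⟩

section
variable {V : Type} [DecidableEq V]

/-- a move of the token to an unvisited vertex one of whose entry slots names the current vertex -/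
def GM (vs : List V) (pr : Bool → V → Option V) (p q : Finset V × V) : Prop :=
  q.2 ∈ vs ∧ q.2 ∉ p.1 ∧ (∃ j, pr j q.2 = some p.2) ∧ q.1 = insert q.2 p.1

theorem GM_lt {vs : List V} {pr : Bool → V → Option V} (p q : Finset V × V) (h : GM vs pr p q) :
    (vs.toFinset \ q.1).card < (vs.toFinset \ p.1).card := by
  refine Finset.card_lt_card ⟨Finset.sdiff_subset_sdiff le_rfl (h.2.2.2 ▸ Finset.subset_insert _ _), fun s => ?_⟩
  simpa [h.2.2.2] using @s q.2 (by simp [h.1, h.2.1])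

theorem geo_rec (vs : List V) (pr : Bool → V → Option V) (S : Finset V) (u : V) : Win (GM vs pr) (S, u) ↔
    ∃ v, (v ∈ vs ∧ ∃ j, pr j v = some u) ∧ v ∉ S ∧ ¬ Win (GM vs pr) (insert v S, v) := by
  rw [win_rec _ GM_lt]
  constructor
  · rintro ⟨⟨T, v⟩, ⟨h1, h2, h3, e⟩, h⟩
    obtain rfl : T = insert v S := e
    exact ⟨v, ⟨h1, h3⟩, h2, h⟩
  · rintro ⟨v, ⟨h1, h3⟩, h2, h⟩
    exact ⟨(insert v S, v), ⟨h1, h2, h3, rfl⟩, h⟩

end

abbrev QI := List Bool × List (List (ℕ × Bool))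
abbrev GeoV := ℕ × ℕ × Bool × ℕ

def gvs (a : QI) : List GeoV :=
  (List.range (a.1.length + 1)).map (fun i => (0, i, false, 0)) ++
    ([1] ×ˢ List.range a.1.length ×ˢ [false, true] ×ˢ List.range (2 * a.2.length + 3)) ++
    (List.range a.2.length).map (fun c => (2, 0, false, c)) ++
    ([3] ×ˢ List.range a.1.length ×ˢ [false, true] ×ˢ List.range a.2.length)

def gpr (a : QI) (j : Bool) (v : GeoV) : Option GeoV :=
  if v.1 = 0 then (if v.2.1 = 0 then none else some (1, v.2.1 - 1, j, 2 * a.2.length + 2))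
  else if j = true then
    (if v.1 = 1 ∧ v.2.2.2 % 2 = 0 ∧ 2 ≤ v.2.2.2 ∧ v.2.2.2 ≤ 2 * a.2.length then
      some (3, v.2.1, v.2.2.1, v.2.2.2 / 2 - 1) else none)
  else if v.1 = 1 then
    (if v.2.2.2 = 0 then (if a.1.getD v.2.1 false = true ∨ v.2.2.1 = false then some (0, v.2.1, false, 0) else none)
    else if v.2.2.2 = 1 then some (1, v.2.1, v.2.2.1 && a.1.getD v.2.1 false, 0)
    else some (1, v.2.1, v.2.2.1, v.2.2.2 - 1))
  else if v.1 = 2 then some (0, a.1.length, false, 0)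
  else if (v.2.1, v.2.2.1) ∈ a.2.getD v.2.2.2 [] then some (2, 0, false, v.2.2.2) else none

/-- the player to move at a vertex -/
def gty (v : GeoV) : Bool := decide (v.1 = 2 ∨ v.1 = 1 ∧ v.2.2.2 % 2 = 0)

/-- the slot used by the arcs leaving a vertex -/
def glab (a : QI) (v : GeoV) : Bool := decide (v.1 = 3 ∨ v.1 = 1 ∧ v.2.2.1 = true ∧ v.2.2.2 = 2 * a.2.length + 2)

section
variable {α : Type} [Enc α] {a : α → QI} {v : α → GeoV} {j : α → Bool}
@[fun_prop] theorem PT.gvs (ha : PT a) : PT fun x => gvs (a x) := by unfold CX.gvs; fun_prop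
@[fun_prop] theorem PT.gpr (ha : PT a) (hj : PT j) (hv : PT v) : PT fun x => gpr (a x) (j x) (v x) := by
  unfold CX.gpr; fun_prop
@[fun_prop] theorem PT.gty (hv : PT v) : PT fun x => gty (v x) := by unfold CX.gty; fun_prop
@[fun_prop] theorem PT.glab (ha : PT a) (hv : PT v) : PT fun x => glab (a x) (v x) := by unfold CX.glab; fun_prop
end

theorem mem_gvs (a : QI) (t i : ℕ) (β : Bool) (k : ℕ) : (t, i, β, k) ∈ gvs a ↔
    t = 0 ∧ i ≤ a.1.length ∧ β = false ∧ k = 0 ∨ t = 1 ∧ i < a.1.length ∧ k ≤ 2 * a.2.length + 2 ∨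
      t = 2 ∧ i = 0 ∧ β = false ∧ k < a.2.length ∨ t = 3 ∧ i < a.1.length ∧ k < a.2.length := by
  cases β <;> simp [gvs, Nat.lt_succ_iff, or_assoc] <;> grind

theorem nodup_gvs (a : QI) : (gvs a).Nodup := by
  have b : [false, true].Nodup := by simp
  simp only [gvs, List.nodup_append, List.mem_append, List.mem_map, ne_eq]
  refine ⟨⟨⟨List.nodup_range.map fun i j h => by simpa using h,
    (List.nodup_singleton _).product (List.nodup_range.product (b.product List.nodup_range)), ?_⟩,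
    List.nodup_range.map fun i j h => by simpa using h, ?_⟩,
    (List.nodup_singleton _).product (List.nodup_range.product (b.product List.nodup_range)), ?_⟩
  · rintro _ ⟨i, -, rfl⟩ _ h rfl
    simp at h
  · rintro _ (⟨i, -, rfl⟩ | h) _ ⟨c, -, rfl⟩ e
    · simp at e
    · simp [e] at h
  · rintro ⟨t, i, β, k⟩ (((⟨i, -, e⟩ | e)) | ⟨c, -, e⟩) _ h rfl <;> simp at h e <;> omega

/-- the arcs of the graph -/
theorem garc (a : QI) (u v : GeoV) : (v ∈ gvs a ∧ ∃ j, gpr a j v = some u) ↔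
    (∃ i < a.1.length, ∃ β, (a.1.getD i false = true ∨ β = false) ∧ u = (0, i, false, 0) ∧ v = (1, i, β, 0)) ∨
    (∃ i < a.1.length, ∃ β, u = (1, i, β && a.1.getD i false, 0) ∧ v = (1, i, β, 1)) ∨
    (∃ i < a.1.length, ∃ β k, 1 ≤ k ∧ k < 2 * a.2.length + 2 ∧ u = (1, i, β, k) ∧ v = (1, i, β, k + 1)) ∨
    (∃ i < a.1.length, ∃ β, u = (1, i, β, 2 * a.2.length + 2) ∧ v = (0, i + 1, false, 0)) ∨
    (∃ c < a.2.length, u = (0, a.1.length, false, 0) ∧ v = (2, 0, false, c)) ∨
    (∃ c < a.2.length, ∃ i < a.1.length, ∃ β, (i, β) ∈ a.2.getD c [] ∧ u = (2, 0, false, c) ∧ v = (3, i, β, c)) ∨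
    (∃ c < a.2.length, ∃ i < a.1.length, ∃ β, u = (3, i, β, c) ∧ v = (1, i, β, 2 * c + 2)) := by
  constructor
  · obtain ⟨t, i, β, k⟩ := v
    rintro ⟨h, j, e⟩
    rw [mem_gvs] at h
    simp only [gpr] at e
    split_ifs at e with h1 h2 h3 h4 h5 h6 h7 h8 h9 h10 <;> obtain rfl := Option.some.inj e
    · obtain ⟨i, rfl⟩ : ∃ i', i = i' + 1 := ⟨i - 1, by omega⟩
      exact .inr (.inr (.inr (.inl ⟨i, by omega, j, rfl, by grind⟩)))
    · exact .inr (.inr (.inr (.inr (.inr (.inr ⟨k / 2 - 1, by omega, i, by omega, β, rfl, by grind⟩)))))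
    · exact .inl ⟨i, by omega, β, h7, rfl, by grind⟩
    · exact .inr (.inl ⟨i, by omega, β, rfl, by grind⟩)
    · exact .inr (.inr (.inl ⟨i, by omega, β, k - 1, by omega, by omega, rfl, by grind⟩))
    · exact .inr (.inr (.inr (.inr (.inl ⟨k, by omega, rfl, by grind⟩))))
    · exact .inr (.inr (.inr (.inr (.inr (.inl ⟨k, by omega, i, by omega, β, h10, rfl, by grind⟩)))))
  · rintro (⟨i, hi, β, h, rfl, rfl⟩ | ⟨i, hi, β, rfl, rfl⟩ | ⟨i, hi, β, k, h1, h2, rfl, rfl⟩ | ⟨i, hi, β, rfl, rfl⟩ |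
      ⟨c, hc, rfl, rfl⟩ | ⟨c, hc, i, hi, β, h, rfl, rfl⟩ | ⟨c, hc, i, hi, β, rfl, rfl⟩) <;> rw [mem_gvs]
    · exact ⟨by omega, false, by simp only [gpr]; simp [h, -List.getD_eq_getElem?_getD]⟩
    · exact ⟨by omega, false, by simp [gpr]⟩
    · exact ⟨by omega, false, by simp [gpr]; omega⟩
    · exact ⟨by simp; omega, β, by simp [gpr]⟩
    · exact ⟨by simp; omega, false, by simp [gpr]⟩
    · exact ⟨by omega, false, by simp only [gpr]; simp [h, -List.getD_eq_getElem?_getD]⟩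
    · exact ⟨by omega, true, by simp [gpr]; omega⟩

theorem gpr_spec (a : QI) {v w : GeoV} {j : Bool} (hv : v ∈ gvs a) (h : gpr a j v = some w) :
    w ∈ gvs a ∧ gty w ≠ gty v ∧ glab a w = j := by
  obtain ⟨t, i, β, k⟩ := v
  rw [mem_gvs] at hv
  simp only [gpr] at h
  cases j <;> split_ifs at h <;> obtain rfl := Option.some.inj h <;> rw [mem_gvs] <;> simp only [gty, glab] <;> grind

theorem gpr_two (a : QI) {v : GeoV} (hv : v ∈ gvs a) : gpr a true v = none ∨
    ∀ j, ∃ w, gpr a j v = some w ∧ ∀ v' ∈ gvs a, ∀ j', gpr a j' v' = some w → v' = v := by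
  obtain ⟨t, i, β, k⟩ := v
  rw [mem_gvs] at hv
  by_cases h1 : t = 0 ∧ i ≠ 0
  · refine .inr fun j => ⟨(1, i - 1, j, 2 * a.2.length + 2), by simp [gpr, h1], fun v' h j' e => ?_⟩
    have := (garc a _ _).1 ⟨h, j', e⟩
    grind
  by_cases h2 : t = 1 ∧ k % 2 = 0 ∧ 2 ≤ k ∧ k ≤ 2 * a.2.length
  · refine .inr fun j => ?_
    cases j
    · refine ⟨(1, i, β, k - 1), by simp [gpr, h2]; grind, fun v' h j' e => ?_⟩
      have := (garc a _ _).1 ⟨h, j', e⟩
      grind
    · refine ⟨(3, i, β, k / 2 - 1), by simp [gpr, h2], fun v' h j' e => ?_⟩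
      have := (garc a _ _).1 ⟨h, j', e⟩
      grind
  · left
    simp only [gpr]
    grind

theorem gstart (a : QI) : (0, 0, false, 0) ∈ gvs a := by simp [mem_gvs]

theorem gwalk (a : QI) {i : ℕ} (hi : i < a.1.length) (β : Bool) (P : Prop) (d : ℕ) : ∀ k (S : Finset GeoV), 1 ≤ k →
    k + d = 2 * a.2.length + 2 → (∀ k', k < k' → (1, i, β, k') ∉ S) →
    (∀ S' : Finset GeoV, (∀ v, v ∈ S' ↔ v ∈ S ∨ ∃ k', k < k' ∧ k' ≤ 2 * a.2.length + 2 ∧ v = (1, i, β, k')) →
      (Win (GM (gvs a) (gpr a)) (S', 1, i, β, 2 * a.2.length + 2) ↔ P)) →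
    (Win (GM (gvs a) (gpr a)) (S, 1, i, β, k) ↔ (P ↔ k % 2 = 0)) := by
  induction d with
  | zero =>
    intro k S _ hk _ h
    obtain rfl : k = 2 * a.2.length + 2 := hk
    rw [h S (by grind)]
    simp
  | succ d ih =>
    intro k S h1 hk h2 h
    have := ih (k + 1) (insert (1, i, β, k + 1) S) (by omega) (by omega) (by grind) fun S' e => h S' fun v => by
      rw [e]
      constructor
      · grind
      · rintro (q | ⟨k', q1, q2, rfl⟩)
        · grind
        · by_cases q : k' = k + 1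
          · grind
          · exact .inr ⟨k', by omega, q2, rfl⟩
    rw [geo_rec]
    have e : ∀ v, (v ∈ gvs a ∧ ∃ j, gpr a j v = some (1, i, β, k)) ↔ v = (1, i, β, k + 1) := fun v => by
      rw [garc]
      exact ⟨by grind, fun e => .inr (.inr (.inl ⟨i, hi, β, k, h1, by omega, rfl, e⟩))⟩
    simp only [e, exists_eq_left, this, h2 (k + 1) (by omega)]
    grind

def GVis (a : QI) (i : ℕ) (σ : ℕ → Bool) (S : Finset GeoV) : Prop :=
  (∀ i' β k, i' < i → 1 ≤ k → k ≤ 2 * a.2.length + 2 → ((1, i', β, k) ∈ S ↔ β = σ i')) ∧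
    (∀ i' β k, (1, i', β, k) ∈ S → i' < i ∧ k ≤ 2 * a.2.length + 2) ∧ (∀ i', (0, i', false, 0) ∈ S ↔ i' ≤ i) ∧
    ∀ v ∈ S, v.1 < 2

theorem glast (a : QI) (hw : ∀ C ∈ a.2, ∀ l ∈ C, l.1 < a.1.length) {σ : ℕ → Bool} {S : Finset GeoV}
    (h : GVis a a.1.length σ S) : Win (GM (gvs a) (gpr a)) (S, 0, a.1.length, false, 0) ↔ ¬ CSat a.2 σ := by
  obtain ⟨h1, h2, h3, h4⟩ := h
  have l : ∀ c < a.2.length, ∀ i < a.1.length, ∀ β, Win (GM (gvs a) (gpr a))
      (insert (3, i, β, c) (insert (2, 0, false, c) S), 3, i, β, c) ↔ σ i ≠ β := fun c hc i hi β => by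
    rw [geo_rec]
    have e : ∀ v, (v ∈ gvs a ∧ ∃ j, gpr a j v = some (3, i, β, c)) ↔ v = (1, i, β, 2 * c + 2) := fun v => by
      rw [garc]
      exact ⟨by grind, fun e => .inr (.inr (.inr (.inr (.inr (.inr ⟨c, hc, i, hi, β, rfl, e⟩)))))⟩
    simp only [e, exists_eq_left]
    have := h1 i β (2 * c + 2) hi (by omega) (by omega)
    refine ⟨by grind, fun q => ⟨by grind, ?_⟩⟩
    rw [gwalk a hi β False (2 * a.2.length - 2 * c) _ _ (by omega) (by omega) (by grind) fun S' e => ?_]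
    · simp
    · rw [geo_rec, iff_false]
      rintro ⟨v, q1, q2, -⟩
      rw [garc] at q1
      have := (h3 (i + 1)).2 hi
      grind
  have cl : ∀ c < a.2.length, Win (GM (gvs a) (gpr a)) (insert (2, 0, false, c) S, 2, 0, false, c) ↔
      ∃ l ∈ a.2.getD c [], σ l.1 = l.2 := fun c hc => by
    rw [geo_rec]
    constructor
    · rintro ⟨v, q1, -, q2⟩
      rw [garc] at q1
      obtain ⟨i, hi, β, q, rfl⟩ : ∃ i < a.1.length, ∃ β, (i, β) ∈ a.2.getD c [] ∧ v = (3, i, β, c) := by grind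
      exact ⟨_, q, by simpa [l c hc i hi] using q2⟩
    · rintro ⟨⟨i, β⟩, q1, q2⟩
      have hi : i < a.1.length := hw _ (by simp [hc]) _ q1
      refine ⟨(3, i, β, c), (garc ..).2 (.inr (.inr (.inr (.inr (.inr (.inl ⟨c, hc, i, hi, β, q1, rfl, rfl⟩)))))), ?_,
        by simpa [l c hc i hi] using q2⟩
      have := h4 (3, i, β, c)
      grind
  rw [geo_rec]
  constructor
  · rintro ⟨v, q1, -, q2⟩ s
    rw [garc] at q1
    obtain ⟨c, hc, rfl⟩ : ∃ c < a.2.length, v = (2, 0, false, c) := by grind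
    exact q2 ((cl c hc).2 (s _ (by simp [hc])))
  · intro s
    simp only [CSat, not_forall] at s
    obtain ⟨C, hC, s⟩ := s
    obtain ⟨c, hc, rfl⟩ := List.getElem_of_mem hC
    refine ⟨(2, 0, false, c), (garc ..).2 (.inr (.inr (.inr (.inr (.inl ⟨c, hc, rfl, rfl⟩))))), ?_, ?_⟩
    · have := h4 (2, 0, false, c)
      grind
    · rw [cl c hc]
      simpa [hc] using s

theorem gmain (a : QI) (hw : ∀ C ∈ a.2, ∀ l ∈ C, l.1 < a.1.length) (d : ℕ) : ∀ i σ S, i + d = a.1.length →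
    GVis a i σ S → (Win (GM (gvs a) (gpr a)) (S, 0, i, false, 0) ↔ ¬ QN (CSat a.2) (a.1.zipIdx.drop i) σ) := by
  induction d with
  | zero =>
    rintro i σ S rfl h
    rw [List.drop_of_length_le (by simp)]
    exact glast a hw h
  | succ d ih =>
    rintro i σ S hi ⟨h1, h2, h3, h4⟩
    have hi' : i < a.1.length := by omega
    have one : ∀ β γ, Win (GM (gvs a) (gpr a)) (insert (1, i, β, 1) (insert (1, i, γ, 0) S), 1, i, β, 1) ↔
        ¬ QN (CSat a.2) (a.1.zipIdx.drop (i + 1)) (update σ i β) := fun β γ => by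
      rw [gwalk a hi' β (QN (CSat a.2) (a.1.zipIdx.drop (i + 1)) (update σ i β)) (2 * a.2.length + 1) 1 _ le_rfl
        (by omega) (by grind) fun S' e => ?_]
      · simp
      rw [geo_rec]
      have e' : ∀ v, (v ∈ gvs a ∧ ∃ j, gpr a j v = some (1, i, β, 2 * a.2.length + 2)) ↔ v = (0, i + 1, false, 0) :=
        fun v => by
          rw [garc]
          exact ⟨by grind, fun e => .inr (.inr (.inr (.inl ⟨i, hi', β, rfl, e⟩)))⟩
      have := h3 (i + 1)
      simp only [e', exists_eq_left]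
      have vis : GVis a (i + 1) (update σ i β) (insert (0, i + 1, false, 0) S') := by
        refine ⟨fun i' β' k q1 q2 q3 => ?_, fun i' β' k q => ?_, fun i' => ?_, ?_⟩
        · by_cases q : i' = i
          · subst q
            have := h2 i' β' k
            rw [update_self, Finset.mem_insert, e]
            refine ⟨by grind, fun q => ?_⟩
            by_cases q' : k = 1
            · grind
            · exact .inr (.inr ⟨k, by omega, q3, by rw [q]⟩)
          · have := h1 i' β' k (by omega) q2 q3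
            rw [update_of_ne q]
            grind
        · have := h2 i' β' k
          grind
        · have := h3 i'
          grind
        · grind
      rw [ih (i + 1) (update σ i β) _ (by omega) vis]
      grind
    have zero : ∀ γ, Win (GM (gvs a) (gpr a)) (insert (1, i, γ, 0) S, 1, i, γ, 0) ↔
        ∃ β, γ = (β && a.1.getD i false) ∧ QN (CSat a.2) (a.1.zipIdx.drop (i + 1)) (update σ i β) := fun γ => by
      rw [geo_rec]
      constructor
      · rintro ⟨v, q1, -, q2⟩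
        rw [garc] at q1
        obtain ⟨β, q, rfl⟩ : ∃ β, γ = (β && a.1.getD i false) ∧ v = (1, i, β, 1) := by grind
        exact ⟨β, q, by simpa [one] using q2⟩
      · rintro ⟨β, rfl, q⟩
        refine ⟨(1, i, β, 1), (garc ..).2 (.inr (.inl ⟨i, hi', β, rfl, rfl⟩)), ?_, by simpa [one] using q⟩
        have := h2 i β 1
        grind
    have e : ∀ v, (v ∈ gvs a ∧ ∃ j, gpr a j v = some (0, i, false, 0)) ↔
        ∃ γ, (a.1.getD i false = true ∨ γ = false) ∧ v = (1, i, γ, 0) := fun v => by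
      rw [garc]
      exact ⟨by grind, fun ⟨γ, q, e⟩ => .inl ⟨i, hi', γ, q, rfl, e⟩⟩
    have n : ∀ γ, (1, i, γ, 0) ∉ S := fun γ q => by simpa using (h2 _ _ _ q).1
    rw [geo_rec, List.drop_eq_getElem_cons (by simpa using hi')]
    have g : a.1.getD i false = a.1[i] := by simp [hi']
    simp only [e, QN, List.getElem_zipIdx, zero_add, g] at zero ⊢
    cases q : a.1[i]
    · simp [q, zero, n]
    · simp [q, zero, n]
      tauto

/-- the first player wins the geography game exactly when the formula is false -/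
theorem geo_iff (a : QI) (hw : ∀ C ∈ a.2, ∀ l ∈ C, l.1 < a.1.length) :
    Win (GM (gvs a) (gpr a)) ({(0, 0, false, 0)}, 0, 0, false, 0) ↔ ¬ QBF a :=
  gmain a hw _ 0 _ _ (zero_add _) ⟨by simp, by simp, by simp, by simp⟩

end Pool.Agent.Lib.CX
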