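import Pool.Agent.Lib.helper22.CXEtrB
import Pool.Agent.Lib.helper22.CXEtrS

/-! Systems of strict interval constraints on an increasing sequence are hard for ETR. -/

namespace Pool.Agent.Lib.SG

open Pool.Agent.Lib.CX Pool.Agent.Lib.ER Finset

set_option synthInstance.maxSize 4000

abbrev T6 := (ℕ × ℕ) × (ℕ × ℕ) × ℕ × ℕ

def t6 (M : ℕ) (E : List Q4) : List T6 :=
  (E.map fun e => ((e.1, e.2.1), (e.2.2.1, 0), e.2.2.2, 0)) ++ (List.range M).map fun i => ((i, i), (M + i, M + i), 0, 0)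

def T6.v (u : ℕ → ℝ) (t : T6) : ℝ := u t.1.1 * u t.1.2 + u t.2.1.1 * u t.2.1.2 - u t.2.2.1 * u t.2.2.2

def T6.lt (n : ℕ) (t : T6) : Prop := t.1.1 < n ∧ t.1.2 < n ∧ t.2.1.1 < n ∧ t.2.1.2 < n ∧ t.2.2.1 < n ∧ t.2.2.2 < n

theorem t6_lt {M E} (h0 : 0 < M) (hE : ∀ e ∈ E, Q4.lt M e) : ∀ t ∈ t6 M E, t.lt (2 * M) := by
  simp only [t6, List.forall_mem_append, List.forall_mem_map, List.mem_range, T6.lt]
  exact ⟨fun e he => by have := hE e he; unfold Q4.lt at this; omega, fun i hi => by omega⟩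

theorem t6_yes {M E} {x : ℕ → ℝ} (h0 : 0 < M) (hE : ∀ e ∈ E, Q4.lt M e) (x0 : x 0 = 1) (xb : ∀ i, |x i| ≤ 1)
    (h : ∀ e ∈ E, Q4.ok x e) : ∃ u : ℕ → ℝ, u 0 = 2 ∧ (∀ i, |u i| ≤ 2) ∧ ∀ t ∈ t6 M E, t.v u = 0 := by
  let u : ℕ → ℝ := fun i => if i < M then 2 * x i else 2 * √(1 - x (i - M) ^ 2)
  have s : ∀ i, 0 ≤ 1 - x i ^ 2 := fun i => by have := abs_le.1 (xb i); nlinarith
  have u1 : ∀ i < M, u i = 2 * x i := fun i hi => if_pos hi
  refine ⟨u, by rw [u1 0 h0, x0, mul_one], fun i => ?_, ?_⟩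
  · simp only [u]
    split_ifs
    · rw [abs_mul, abs_two]; linarith [xb i]
    · rw [abs_mul, abs_two, abs_of_nonneg (Real.sqrt_nonneg _)]
      have : √(1 - x (i - M) ^ 2) ≤ 1 := Real.sqrt_le_one.2 (by nlinarith)
      linarith
  · simp only [t6, List.forall_mem_append, List.forall_mem_map, List.mem_range, T6.v]
    refine ⟨fun e he => ?_, fun i hi => ?_⟩
    · obtain ⟨a, b, c, d⟩ := hE e he
      have := h e he
      unfold Q4.ok at this
      rw [u1 _ a, u1 _ b, u1 _ c, u1 _ d, u1 _ h0, x0]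
      linarith
    · have : u (M + i) = 2 * √(1 - x i ^ 2) := by simp [u]
      rw [this, u1 _ hi, u1 _ h0, x0]
      nlinarith [Real.mul_self_sqrt (s i)]

theorem t6_no {M E} (h0 : 0 < M) (hE : ∀ e ∈ E, Q4.lt M e) (hno : ¬∃ x : ℕ → ℝ, x 0 ≠ 0 ∧ ∀ e ∈ E, Q4.ok x e)
    (u : ℕ → ℝ) (u0 : 1 / 2 ≤ u 0)
    (h : ∀ t ∈ t6 M E, |t.v u| ≤ 30 / 2 ^ 2 ^ (6 * M + (t6 M E).length + 8)) : False := by
  have lt := t6_lt h0 hE
  let F : List Bf := (t6 M E).map fun t => [(1, t.1.1, t.1.2), (1, t.2.1.1, t.2.1.2), (-1, t.2.2.1, t.2.2.2)]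
  have v : ∀ (t : T6) u, Bf.val [(1, t.1.1, t.1.2), (1, t.2.1.1, t.2.1.2), (-1, t.2.2.1, t.2.2.2)] u u = t.v u :=
    fun t u => by simp [Bf.val, T6.v]; ring
  have := @sep (2 * M) F (by
      simp only [F, List.forall_mem_map, List.forall_mem_cons, List.not_mem_nil, false_imp_iff, implies_true, and_true]
      intro t ht
      have := lt t ht
      unfold T6.lt at this
      omega) (by
      rintro ⟨w, ⟨i, hi, hw⟩, hz⟩
      simp only [F, List.forall_mem_map, v] at hz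
      simp only [t6, List.forall_mem_append, List.forall_mem_map, List.mem_range, T6.v] at hz
      have w0 : w 0 ≠ 0 := fun q => by
        by_cases c : i < M
        · have := hz.2 i c
          rw [q] at this
          exact hw (by nlinarith)
        · have := hz.2 (i - M) (by omega)
          rw [q, show M + (i - M) = i by omega] at this
          exact hw (by nlinarith)
      refine hno ⟨fun i => w i / w 0, by simpa using w0, fun e he => ?_⟩
      have := hz.1 e he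
      unfold Q4.ok
      field_simp
      linarith) ((t6 M E).length + 1) (by
      have : (F.map fun Q => Q.l1 * Q.l1).sum = (t6 M E).length * 9 := by
        simp [F, Bf.l1, Function.comp_def]
      rw [this, show (t6 M E).length + 1 + 5 = (t6 M E).length + 6 by omega, pow_add]
      have := @Nat.lt_two_pow_self (t6 M E).length
      omega) u
  have a : 1 / 4 ≤ ∑ i ∈ range (2 * M), u i ^ 2 :=
    le_trans (by nlinarith) (single_le_sum (f := fun i => u i ^ 2) (fun _ _ => sq_nonneg _) (mem_range.2 (by omega : 0 < 2 * M)))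
  have b : pf F u ≤ (t6 M E).length * (30 / 2 ^ 2 ^ (6 * M + (t6 M E).length + 8)) ^ 2 := by
    have := List.sum_le_card_nsmul (F.map fun Q => Q.val u u ^ 2) ((30 / 2 ^ 2 ^ (6 * M + (t6 M E).length + 8)) ^ 2) (by
      simp only [F, List.forall_mem_map, v]
      intro t ht
      rw [← sq_abs]
      exact pow_le_pow_left₀ (abs_nonneg _) (h t ht) 2)
    simpa [pf, F] using this
  generalize (t6 M E).length = t at *
  rw [show 3 * (2 * M) + (t + 1) + 5 = 6 * M + t + 6 by omega] at this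
  have c : (2 : ℝ) ^ 2 ^ (6 * M + t + 8) = (2 ^ 2 ^ (6 * M + t + 6)) ^ 4 := by
    rw [← pow_mul, show 6 * M + t + 8 = 6 * M + t + 6 + 2 by omega, pow_add]; norm_num
  have d : (2 : ℝ) ^ 20 * 2 ^ M * 2 ^ t ≤ 2 ^ 2 ^ (6 * M + t + 6) := by
    rw [← pow_add, ← pow_add]
    refine pow_le_pow_right₀ one_le_two ?_
    have := @Nat.lt_two_pow_self (6 * M + t)
    rw [pow_add]
    omega
  have e1 : (M : ℝ) < 2 ^ M := by exact_mod_cast Nat.lt_two_pow_self
  have e2 : (t : ℝ) < 2 ^ t := by exact_mod_cast Nat.lt_two_pow_self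
  have e3 : (1 : ℝ) ≤ 2 ^ M * 2 ^ t := one_le_mul_of_one_le_of_one_le (one_le_pow₀ one_le_two) (one_le_pow₀ one_le_two)
  have e4 : (M : ℝ) * t ≤ 2 ^ M * 2 ^ t := by gcongr
  rw [c] at b
  generalize (2 : ℝ) ^ 2 ^ (6 * M + t + 6) = X at *
  have X1 : 1 ≤ X := by nlinarith
  have f : 1 / 16 ≤ 2 * ((2 * M : ℕ) : ℝ) * X ^ 2 * (t * (30 / X ^ 4) ^ 2) :=
    le_trans (by nlinarith) (this.trans (by gcongr))
  have g : 2 * ((2 * M : ℕ) : ℝ) * X ^ 2 * (t * (30 / X ^ 4) ^ 2) = 3600 * (M * t) / X ^ 6 := by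
    push_cast; field_simp; ring
  rw [g, le_div_iff₀ (by positivity)] at f
  have : X ≤ X ^ 6 := le_self_pow₀ X1 (by omega)
  nlinarith

abbrev LR := List (ℕ × ℕ) × List (ℕ × ℕ)

def eqn (n : ℕ) (t : T6) : LR :=
  ([(2 + n + t.1.1, 2 + n + t.1.2), (2 + t.1.1, 2 + t.1.2), (2 + t.1.1, 2 + t.1.2), (2 + t.1.1, 2 + t.1.2),
    (2 + t.1.1, 2 + t.1.2), (2 + n + t.2.1.1, 2 + n + t.2.1.2), (2 + t.2.1.1, 2 + t.2.1.2), (2 + t.2.1.1, 2 + t.2.1.2),
    (2 + t.2.1.1, 2 + t.2.1.2), (2 + t.2.1.1, 2 + t.2.1.2), (2 + n + t.2.2.1, 2 + t.2.2.2), (2 + n + t.2.2.1, 2 + t.2.2.2),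
    (2 + t.2.2.1, 2 + n + t.2.2.2), (2 + t.2.2.1, 2 + n + t.2.2.2)],
   [(2 + n + t.1.1, 2 + t.1.2), (2 + n + t.1.1, 2 + t.1.2), (2 + t.1.1, 2 + n + t.1.2), (2 + t.1.1, 2 + n + t.1.2),
    (2 + n + t.2.1.1, 2 + t.2.1.2), (2 + n + t.2.1.1, 2 + t.2.1.2), (2 + t.2.1.1, 2 + n + t.2.1.2),
    (2 + t.2.1.1, 2 + n + t.2.1.2), (2 + n + t.2.2.1, 2 + n + t.2.2.2), (2 + t.2.2.1, 2 + t.2.2.2),
    (2 + t.2.2.1, 2 + t.2.2.2), (2 + t.2.2.1, 2 + t.2.2.2), (2 + t.2.2.1, 2 + t.2.2.2)])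

def eqs (n : ℕ) (T : List T6) : List LR := ([(2 + n, 1)], [(2, 1), (2, 1), (1, 1)]) :: T.map (eqn n)

def chain (n k : ℕ) (q : LR) : List Q4 :=
  (1, 2 + 2 * n, 3 + 2 * n + 30 * k, 3 + 2 * n + 30 * k + 15) ::
  (1, 2 + 2 * n, 3 + 2 * n + 30 * k + q.2.length, 3 + 2 * n + 30 * k + 15 + q.1.length) ::
  (((List.range 14).map fun j => ((q.2.getD j (1, 1)).1, (q.2.getD j (1, 1)).2, 3 + 2 * n + 30 * k + j,
    3 + 2 * n + 30 * k + j + 1)) ++
  (List.range 14).map fun j => ((q.1.getD j (1, 1)).1, (q.1.getD j (1, 1)).2, 3 + 2 * n + 30 * k + 15 + j,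
    3 + 2 * n + 30 * k + 15 + j + 1))

def exs (n : ℕ) (T : List T6) : List Q4 :=
  (List.range (T.length + 1)).flatMap fun k => chain n k ((eqs n T).getD k ([], []))

noncomputable def ps (x : ℕ → ℝ) (l : List (ℕ × ℕ)) (j : ℕ) : ℝ :=
  ∑ i ∈ range j, x (l.getD i (1, 1)).1 * x (l.getD i (1, 1)).2

def Q4.er (x : ℕ → ℝ) (e : Q4) : ℝ := x e.1 * x e.2.1 + x e.2.2.1 - x e.2.2.2

theorem eqs_lt {n T} (h3 : 0 < n) (hE : ∀ t ∈ T, T6.lt n t) (k) :
    ((eqs n T).getD k ([], [])).1.length ≤ 14 ∧ ((eqs n T).getD k ([], [])).2.length ≤ 14 ∧ ∀ j,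
    (∀ p ∈ [((eqs n T).getD k ([], [])).1.getD j (1, 1), ((eqs n T).getD k ([], [])).2.getD j (1, 1)],
      1 ≤ p.1 ∧ p.1 < 2 + 2 * n ∧ 1 ≤ p.2 ∧ p.2 < 2 + 2 * n) := by
  have a : ∀ q ∈ eqs n T, q.1.length ≤ 14 ∧ q.2.length ≤ 14 ∧
      ∀ p ∈ q.1 ++ q.2, 1 ≤ p.1 ∧ p.1 < 2 + 2 * n ∧ 1 ≤ p.2 ∧ p.2 < 2 + 2 * n := by
    simp only [eqs, eqn, List.forall_mem_cons, List.forall_mem_map, List.cons_append, List.nil_append,
      List.not_mem_nil, false_imp_iff, implies_true, and_true, List.length_cons, List.length_nil]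
    refine ⟨by omega, fun e he => ?_⟩
    have := hE e he
    unfold T6.lt at this
    omega
  have b : ∀ (l : List (ℕ × ℕ)) j, (∀ p ∈ l, 1 ≤ p.1 ∧ p.1 < 2 + 2 * n ∧ 1 ≤ p.2 ∧ p.2 < 2 + 2 * n) →
      1 ≤ (l.getD j (1, 1)).1 ∧ (l.getD j (1, 1)).1 < 2 + 2 * n ∧ 1 ≤ (l.getD j (1, 1)).2 ∧
        (l.getD j (1, 1)).2 < 2 + 2 * n := fun l j h => by
    by_cases c : j < l.length
    · rw [List.getD_eq_getElem _ _ c]; exact h _ (List.getElem_mem c)
    · rw [List.getD_eq_default _ _ (not_lt.1 c)]; simp only; omega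
  by_cases c : k < (eqs n T).length
  · rw [List.getD_eq_getElem _ _ c]
    obtain ⟨a1, a2, a3⟩ := a _ (List.getElem_mem c)
    refine ⟨a1, a2, fun j => ?_⟩
    simp only [List.forall_mem_cons, List.not_mem_nil, false_imp_iff, implies_true, and_true]
    exact ⟨b _ j fun p hp => a3 p (List.mem_append_left _ hp), b _ j fun p hp => a3 p (List.mem_append_right _ hp)⟩
  · rw [List.getD_eq_default _ _ (not_lt.1 c)]
    simp; omega

theorem exs_lt {n T} (h3 : 0 < n) (hE : ∀ t ∈ T, T6.lt n t) : ∀ e ∈ exs n T,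
    Q4.lt (3 + 2 * n + 30 * (T.length + 1)) e ∧ 1 ≤ e.1 ∧ 1 ≤ e.2.1 ∧ 1 ≤ e.2.2.2 := by
  simp only [exs, List.forall_mem_flatMap, List.mem_range, chain, List.forall_mem_cons, List.forall_mem_append,
    List.forall_mem_map, Q4.lt]
  intro k hk
  obtain ⟨a, b, c⟩ := eqs_lt h3 hE k
  simp only [List.forall_mem_cons] at c
  exact ⟨by omega, by omega, fun j hj => by have := c j; omega, fun j hj => by have := c j; omega⟩

theorem chain_ap {n k} {q : LR} {x : ℕ → ℝ} {ε : ℝ} (a : q.1.length ≤ 14) (b : q.2.length ≤ 14)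
    (h : ∀ e ∈ chain n k q, |Q4.er x e| ≤ ε) : |ps x q.1 q.1.length - ps x q.2 q.2.length| ≤ 30 * ε := by
  have key : ∀ (l : List (ℕ × ℕ)) (b : ℕ), (∀ j < 14, |x (l.getD j (1, 1)).1 * x (l.getD j (1, 1)).2 + x (b + j) -
      x (b + j + 1)| ≤ ε) → ∀ j ≤ 14, |x (b + j) - x b - ps x l j| ≤ j * ε := fun l b h j hj => by
    induction j with
    | zero => simp [ps]
    | succ j ih =>
      have h1 := abs_le.1 (h j (by omega))
      have h2 := abs_le.1 (ih (by omega))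
      rw [ps] at h2
      rw [ps, sum_range_succ, ← add_assoc, abs_le]
      push_cast
      constructor <;> linarith [h1.1, h1.2, h2.1, h2.2]
  simp only [chain, List.forall_mem_cons, List.forall_mem_append, List.forall_mem_map, List.mem_range, Q4.er] at h
  obtain ⟨h1, h2, h3, h4⟩ := h
  have e0 : 0 ≤ ε := (abs_nonneg _).trans h1
  have h5 := abs_le.1 (key _ _ h3 _ b)
  have h6 := abs_le.1 (key _ _ h4 _ a)
  have a' : (q.1.length : ℝ) * ε ≤ 14 * ε := by gcongr; exact_mod_cast a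
  have b' : (q.2.length : ℝ) * ε ≤ 14 * ε := by gcongr; exact_mod_cast b
  rw [abs_le] at h1 h2 ⊢
  constructor <;> linarith [h1.1, h1.2, h2.1, h2.2, h5.1, h5.2, h6.1, h6.2]

theorem eqs_all {n T} (P : LR → Prop) :
    (∀ k < T.length + 1, P ((eqs n T).getD k ([], []))) ↔ ∀ q ∈ eqs n T, P q := by
  have : (eqs n T).length = T.length + 1 := by simp [eqs]
  rw [← this, List.forall_mem_iff_getElem]
  exact forall₂_congr fun k hk => by rw [List.getD_eq_getElem _ _ hk]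

theorem exs_no {n T} (h3 : 0 < n) (hE : ∀ t ∈ T, T6.lt n t) {x : ℕ → ℝ} {ε : ℝ} (x1 : 1 ≤ x 1) (he : 30 * ε ≤ 1 / 2)
    (h : ∀ e ∈ exs n T, |Q4.er x e| ≤ ε) : ∃ u : ℕ → ℝ, 1 / 2 ≤ u 0 ∧ ∀ t ∈ T, |t.v u| ≤ 30 * ε := by
  simp only [exs, List.forall_mem_flatMap, List.mem_range] at h
  have := (eqs_all fun q => |ps x q.1 q.1.length - ps x q.2 q.2.length| ≤ 30 * ε).1 fun k hk =>
    chain_ap (eqs_lt h3 hE k).1 (eqs_lt h3 hE k).2.1 (h k hk)
  simp only [eqs, eqn, List.forall_mem_cons, List.forall_mem_map, ps, sum_range_succ, List.getD_cons_succ,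
    List.getD_cons_zero, range_zero, sum_empty, zero_add, List.length_cons, List.length_nil] at this
  obtain ⟨h1, h2⟩ := this
  refine ⟨fun i => x (2 + n + i) - 2 * x (2 + i), ?_, fun t ht => ?_⟩
  · have := (abs_le.1 h1).1
    simp only [add_zero]
    by_contra hn
    nlinarith
  · convert h2 t ht using 2
    simp only [T6.v]; ring

theorem exs_yes {n T} (h3 : 0 < n) (hE : ∀ t ∈ T, T6.lt n t) {u : ℕ → ℝ} (u0 : u 0 = 2) (ub : ∀ i, |u i| ≤ 2)
    (h : ∀ t ∈ T, t.v u = 0) : ∃ x : ℕ → ℝ, x 0 = 1 ∧ StrictMono x ∧ ∀ e ∈ exs n T, Q4.er x e = 0 := by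
  have n3 : (1 : ℝ) ≤ n := by exact_mod_cast h3
  let b : ℕ → ℝ := fun i => if i < 2 then i + 1 else if i < 2 + n then (n + i - 1) * 3 else u (i - (2 + n)) + 2 * (i - 1) * 3
  have b0 : b 0 = 1 := by simp [b]
  have b1' : b 1 = 2 := by simp [b]; norm_num
  have b1 : ∀ i < n, b (2 + i) = (n + 1 + i) * 3 := fun i hi => by
    simp [b, hi, show ¬2 + i ≤ 1 by omega]; ring
  have b2 : ∀ i, b (2 + n + i) = u i + 2 * (n + 1 + i) * 3 := fun i => by
    simp [b, show ¬2 + n + i ≤ 1 by omega]; ring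
  have bb : ∀ i < 2 + 2 * n, 0 < b i ∧ b i ≤ 15 * n := fun i hi => by
    have i2 : (i : ℝ) ≤ 1 + 2 * n := by exact_mod_cast (by omega : i ≤ 1 + 2 * n)
    have i0 : (0 : ℝ) ≤ i := Nat.cast_nonneg _
    simp only [b]
    split_ifs with c1 c2
    · constructor <;> nlinarith
    · have : (2 : ℝ) ≤ i := by exact_mod_cast (by omega : 2 ≤ i)
      constructor <;> nlinarith
    · have := abs_le.1 (ub (i - (2 + n)))
      have : (2 : ℝ) ≤ i := by exact_mod_cast (by omega : 2 ≤ i)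
      constructor <;> linarith
  obtain ⟨G, hG⟩ : ∃ G : ℝ, G = 15 * (15 * n) ^ 2 := ⟨_, rfl⟩
  have pp : ∀ l : List (ℕ × ℕ), (∀ j, (l.getD j (1, 1)).1 < 2 + 2 * n ∧ (l.getD j (1, 1)).2 < 2 + 2 * n) →
      (∀ j, ps b l j < ps b l (j + 1)) ∧ ∀ j ≤ 14, ps b l j < G := fun l hl => by
    refine ⟨fun j => ?_, fun j hj => ?_⟩
    · rw [ps, ps, sum_range_succ, lt_add_iff_pos_right]
      exact mul_pos (bb _ (hl j).1).1 (bb _ (hl j).2).1
    · have := sum_le_card_nsmul (range j) (fun i => b (l.getD i (1, 1)).1 * b (l.getD i (1, 1)).2) ((15 * n) ^ 2)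
        fun i _ => by rw [sq]; exact mul_le_mul (bb _ (hl i).1).2 (bb _ (hl i).2).2 (bb _ (hl i).2).1.le (by linarith)
      have j8 : (j : ℝ) ≤ 14 := by exact_mod_cast hj
      simp only [card_range, nsmul_eq_mul] at this
      unfold ps
      nlinarith
  have lL := fun k j => (eqs_lt h3 hE k).2.2 j (((eqs n T).getD k ([], [])).1.getD j (1, 1)) (by simp)
  have lR := fun k j => (eqs_lt h3 hE k).2.2 j (((eqs n T).getD k ([], [])).2.getD j (1, 1)) (by simp)
  have pL := fun k => pp ((eqs n T).getD k ([], [])).1 fun j => ⟨(lL k j).2.1, (lL k j).2.2.2⟩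
  have pR := fun k => pp ((eqs n T).getD k ([], [])).2 fun j => ⟨(lR k j).2.1, (lR k j).2.2.2⟩
  let s : ℕ → ℕ → ℝ := fun k j => (4 * k + 4) * G + if j ≤ 14 then ps b ((eqs n T).getD k ([], [])).2 j else
    2 * G + ps b ((eqs n T).getD k ([], [])).1 (j - 15)
  let x : ℕ → ℝ := fun i => if i < 2 + 2 * n then b i else if i = 2 + 2 * n then G else
    s ((i - (3 + 2 * n)) / 30) ((i - (3 + 2 * n)) % 30)
  have x1 : ∀ i < 2 + 2 * n, x i = b i := fun i hi => if_pos hi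
  have x2 : x (2 + 2 * n) = G := by simp [x]
  have x3 : ∀ k j, j < 30 → x (3 + 2 * n + 30 * k + j) = s k j := fun k j hj => by
    simp only [x]
    rw [if_neg (by omega), if_neg (by omega)]
    congr 1 <;> omega
  have G0 : 15 * n < G := by nlinarith
  have step : ∀ i, x i < x (i + 1) := fun i => by
    rcases lt_trichotomy i (1 + 2 * n) with c | c | c
    · rw [x1 _ (by omega), x1 _ (by omega)]
      rcases Nat.eq_zero_or_pos i with rfl | i0
      · rw [b0, b1']; norm_num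
      by_cases c0 : i = 1
      · rw [c0, b1', show 1 + 1 = 2 + 0 from rfl, b1 0 h3]; push_cast; linarith
      by_cases c1 : i < n + 1
      · obtain ⟨j, rfl⟩ : ∃ j, i = 2 + j := ⟨i - 2, by omega⟩
        rw [b1 j (by omega), add_assoc 2 j, b1 _ (by omega)]; push_cast; linarith
      by_cases c2 : i = n + 1
      · obtain ⟨j, rfl⟩ : ∃ j, i = 2 + j := ⟨i - 2, by omega⟩
        have := abs_le.1 (ub 0)
        have e : (n : ℝ) = 1 + j := by exact_mod_cast (by omega : n = 1 + j)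
        rw [b1 j (by omega), show 2 + j + 1 = 2 + n + 0 by omega, b2]; push_cast; linarith [this.1]
      · obtain ⟨j, rfl⟩ : ∃ j, i = 2 + n + j := ⟨i - (2 + n), by omega⟩
        have h1 := abs_le.1 (ub j)
        have h2 := abs_le.1 (ub (j + 1))
        rw [b2, add_assoc (2 + n), b2]; push_cast; linarith [h1.2, h2.1]
    · rw [c, x1 _ (by omega), show 1 + 2 * n + 1 = 2 + 2 * n by omega, x2]; exact (bb _ (by omega)).2.trans_lt G0
    rcases (show 2 + 2 * n = i ∨ 3 + 2 * n ≤ i by omega) with rfl | c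
    · rw [x2, show 2 + 2 * n + 1 = 3 + 2 * n + 30 * 0 + 0 by omega, x3 _ _ (by omega)]
      simp [s, ps]; linarith
    obtain ⟨k, j, hj, rfl⟩ : ∃ k j, j < 30 ∧ i = 3 + 2 * n + 30 * k + j :=
      ⟨(i - (3 + 2 * n)) / 30, (i - (3 + 2 * n)) % 30, by omega, by omega⟩
    rw [x3 _ _ hj]
    by_cases c1 : j = 29
    · rw [show 3 + 2 * n + 30 * k + j + 1 = 3 + 2 * n + 30 * (k + 1) + 0 by omega, x3 _ _ (by omega), c1]
      have := (pL k).2 14 le_rfl
      simp only [s, ps, range_zero, sum_empty] at this ⊢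
      norm_num at this ⊢
      linarith
    rw [add_assoc, x3 _ _ (by omega)]
    simp only [s, add_lt_add_iff_left]
    split_ifs with c2 c3
    · exact (pR k).1 j
    · rw [show j + 1 - 15 = 0 by omega]
      have := (pR k).2 j (by omega)
      simp only [ps, range_zero, sum_empty] at this ⊢
      linarith
    · omega
    · rw [show j + 1 - 15 = j - 15 + 1 by omega]; linarith [(pL k).1 (j - 15)]
  refine ⟨x, by rw [x1 _ (by omega), b0], strictMono_nat_of_lt_succ step, ?_⟩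
  simp only [exs, List.forall_mem_flatMap, List.mem_range, chain, List.forall_mem_cons, List.forall_mem_append,
    List.forall_mem_map, Q4.er]
  intro k hk
  obtain ⟨a1, a2, -⟩ := eqs_lt h3 hE k
  have y0 := x3 k 0 (by omega)
  rw [add_zero] at y0
  refine ⟨?_, ?_, fun j hj => ?_, fun j hj => ?_⟩
  · rw [x3 _ _ (by omega), y0, x2, x1 _ (by omega), b1']; simp [s, ps]; ring
  · rw [add_assoc _ 15, x3 _ _ (by omega), x3 _ _ (by omega), x2, x1 _ (by omega), b1']
    simp only [s, a2, if_true, show ¬15 + ((eqs n T).getD k ([], [])).1.length ≤ 14 by omega, if_false,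
      Nat.add_sub_cancel_left]
    suffices ∀ q ∈ eqs n T, ps b q.1 q.1.length = ps b q.2 q.2.length by
      linarith [(eqs_all fun q => ps b q.1 q.1.length = ps b q.2 q.2.length).2 this k hk]
    have a0 := b1 0 h3
    have a2 := b2 0
    simp only [add_zero, u0] at a0 a2
    simp only [eqs, eqn, List.forall_mem_cons, List.forall_mem_map, ps, sum_range_succ, List.getD_cons_succ,
      List.getD_cons_zero, range_zero, sum_empty, zero_add, b1', b2, a0, a2, List.length_cons, List.length_nil]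
    refine ⟨by push_cast; ring, fun e he => ?_⟩
    obtain ⟨c1, c2, c3, c4, c5, c6⟩ := hE e he
    have := h e he
    unfold T6.v at this
    rw [b1 _ c1, b1 _ c2, b1 _ c3, b1 _ c4, b1 _ c5, b1 _ c6]
    linarith
  · rw [add_assoc _ j, x3 _ _ (by omega), x3 _ _ (by omega), x1 _ (lR k j).2.1, x1 _ (lR k j).2.2.2]
    simp [s, ps, hj.le, Nat.succ_le_of_lt hj, sum_range_succ]; ring
  · rw [add_assoc _ 15, add_assoc _ (15 + j), x3 _ _ (by omega), x3 _ _ (by omega), x1 _ (lL k j).2.1,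
      x1 _ (lL k j).2.2.2]
    simp [s, ps, show ¬15 + j ≤ 14 by omega, show ¬15 + j + 1 ≤ 14 by omega, show 15 + j + 1 - 15 = j + 1 by omega,
      sum_range_succ]; ring

/-- increasing sequences with interval constraints -/
def IFS (M : ℕ) (E : List Q4) (y : ℕ → ℝ) : Prop := y 0 = 0 ∧ y 1 = 1 ∧ (∀ i, i + 1 < M → y i < y (i + 1)) ∧
  ∀ e ∈ E, y e.2.2.2 < y e.1 * y e.2.1 + y e.2.2.1 ∧ y e.1 * y e.2.1 + y e.2.2.1 < y (e.2.2.2 + 1)

def Ok (M : ℕ) (e : Q4) : Prop := 2 ≤ e.1 ∧ e.1 < M ∧ 2 ≤ e.2.1 ∧ e.2.1 < M ∧ 1 ≤ e.2.2.1 ∧ e.2.2.1 < M ∧ e.2.2.2 + 1 < M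

def rlx (M K : ℕ) (E : List Q4) : List Q4 :=
  (E.map fun e => (1 + 2 * e.1, 1 + 2 * e.2.1, 1 + 2 * e.2.2.1, 1 + 2 * e.2.2.2)) ++
  ((List.range K).map fun j => (1 + 2 * M + j, 1 + 2 * M + j, 1, 1 + 2 * M + j)) ++
  (List.range (M - 1)).flatMap fun m => [(4 + 2 * m, 1 + 2 * M + K, 1, 1 + 2 * M + K + m),
    (3 + 2 * m, 1 + 2 * M + K, 3, 2 + 2 * M + K + m)]

theorem rlx_ok {M K E} (h2 : 2 ≤ M) (hE : ∀ e ∈ E, Q4.lt M e ∧ 1 ≤ e.1 ∧ 1 ≤ e.2.1 ∧ 1 ≤ e.2.2.2) :
    ∀ e ∈ rlx M K E, Ok (2 + 3 * M + K) e := by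
  simp only [rlx, List.forall_mem_append, List.forall_mem_map, List.forall_mem_flatMap, List.mem_range,
    List.forall_mem_cons, List.not_mem_nil, false_imp_iff, implies_true, and_true, Ok]
  exact ⟨⟨fun e he => by have := hE e he; unfold Q4.lt at this; omega, fun j hj => by omega⟩, fun j hj => by omega⟩

theorem mono_of {M : ℕ} {y : ℕ → ℝ} (h : ∀ i, i + 1 < M → y i < y (i + 1)) {i j} (a : i < j) (b : j < M) : y i < y j := by
  induction j with
  | zero => omega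
  | succ j ih =>
    rcases Nat.lt_succ_iff_lt_or_eq.1 a with c | rfl
    · exact (ih c (by omega)).trans (h j b)
    · exact h i b

theorem rlx_no {M L E y} (h2 : 2 ≤ M) (hE : ∀ e ∈ E, Q4.lt M e ∧ 1 ≤ e.1 ∧ 1 ≤ e.2.1 ∧ 1 ≤ e.2.2.2)
    (h : IFS (2 + 3 * M + (L + 2)) (rlx M (L + 2) E) y) :
    1 ≤ y 3 ∧ ∀ e ∈ E, |Q4.er (fun i => y (1 + 2 * i)) e| ≤ 1 / 2 ^ 2 ^ L := by
  obtain ⟨-, y1, mo, h⟩ := h
  simp only [rlx, List.forall_mem_append, List.forall_mem_map, List.forall_mem_flatMap, List.mem_range,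
    List.forall_mem_cons, List.not_mem_nil, false_imp_iff, implies_true, and_true, y1] at h
  obtain ⟨⟨h1, h3⟩, h4⟩ := h
  have a1 : 1 < y 3 := y1 ▸ mono_of mo (by omega) (by omega)
  have a2 : y 3 < y (1 + 2 * M + 0) := mono_of mo (by omega) (by omega)
  have a3 := h3 0 (by omega)
  have a4 : 2 < y (1 + 2 * M + 1) := by nlinarith [a3.2]
  have a5 : ∀ j ≤ L, y (1 + 2 * M + 1) * 2 ^ 2 ^ j ≤ y (1 + 2 * M + (j + 2)) := fun j hj => by
    induction j with
    | zero => have := (h3 1 (by omega)).2; simp only [add_assoc] at *; norm_num at *; nlinarith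
    | succ j ih =>
      have b := ih (by omega)
      have c := (h3 (j + 2) (by omega)).2
      have d : (1 : ℝ) ≤ 2 ^ 2 ^ j := one_le_pow₀ one_le_two
      rw [pow_succ, pow_mul, show 1 + 2 * M + (j + 1 + 2) = 1 + 2 * M + (j + 2) + 1 by omega]
      generalize (2 : ℝ) ^ 2 ^ j = X at *
      have := mul_le_mul b b (by positivity) (by nlinarith)
      nlinarith [mul_pos (by linarith : 0 < y (1 + 2 * M + 1) - 1) (by positivity : 0 < y (1 + 2 * M + 1) * X ^ 2)]
  refine ⟨a1.le, fun e he => ?_⟩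
  obtain ⟨⟨-, -, -, b1⟩, -, -, b2⟩ := hE e he
  obtain ⟨m, hm⟩ : ∃ m, e.2.2.2 = m + 1 := ⟨e.2.2.2 - 1, by omega⟩
  obtain ⟨c1, c2⟩ := h1 e he
  obtain ⟨⟨-, c3⟩, c4, -⟩ := h4 m (by omega)
  have c5 := a5 L le_rfl
  rw [show 1 + 2 * M + (L + 2) + m + 1 = 2 + 2 * M + (L + 2) + m by omega] at c3
  rw [hm, show 1 + 2 * (m + 1) = 3 + 2 * m by omega] at c1 c2
  rw [show 3 + 2 * m + 1 = 4 + 2 * m by omega] at c2
  simp only [Q4.er, hm, show 1 + 2 * (m + 1) = 3 + 2 * m by omega]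
  have p : (0 : ℝ) < 2 ^ 2 ^ L := by positivity
  rw [abs_of_pos (by linarith), le_div_iff₀ p]
  have a6 : y (1 + 2 * M + 0) < y (1 + 2 * M + 1) := a3.1.trans a3.2
  generalize (2 : ℝ) ^ 2 ^ L = X at *
  have c6 : (y (4 + 2 * m) - y (3 + 2 * m)) * (y (1 + 2 * M + 1) * X) ≤
      (y (4 + 2 * m) - y (3 + 2 * m)) * y (1 + 2 * M + (L + 2)) := mul_le_mul_of_nonneg_left c5 (by linarith)
  have c7 : (y (4 + 2 * m) - y (3 + 2 * m)) * X < 1 := by
    by_contra hn
    nlinarith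
  nlinarith

theorem gap {M : ℕ} {x : ℕ → ℝ} (h : ∀ i, i + 1 < M → x i < x (i + 1)) :
    ∃ γ : ℝ, 0 < γ ∧ γ ≤ 1 ∧ ∀ i, i + 1 < M → x i + γ ≤ x (i + 1) := by
  induction M with
  | zero => exact ⟨1, one_pos, le_rfl, by simp⟩
  | succ M ih =>
    obtain ⟨γ, a, b, c⟩ := ih fun i hi => h i (by omega)
    rcases Nat.eq_zero_or_pos M with rfl | p
    · exact ⟨1, one_pos, le_rfl, by simp⟩
    refine ⟨min γ (x (M - 1 + 1) - x (M - 1)), lt_min a (sub_pos.2 (h _ (by omega))), (min_le_left _ _).trans b,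
      fun i hi => ?_⟩
    by_cases q : i + 1 < M
    · linarith [c i q, min_le_left γ (x (M - 1 + 1) - x (M - 1))]
    · obtain rfl : i = M - 1 := by omega
      linarith [min_le_right γ (x (M - 1 + 1) - x (M - 1))]

theorem rlx_yes {M K E} {x : ℕ → ℝ} (h2 : 2 ≤ M) (hE : ∀ e ∈ E, Q4.lt M e ∧ 1 ≤ e.1 ∧ 1 ≤ e.2.1 ∧ 1 ≤ e.2.2.2)
    (x0 : x 0 = 1) (mo : StrictMono x) (h : ∀ e ∈ E, Q4.er x e = 0) : ∃ y, IFS (2 + 3 * M + K) (rlx M K E) y := by
  obtain ⟨γ, g0, g1, g⟩ := @gap (M + 1) x fun i _ => mo (Nat.lt_succ_self i)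
  obtain ⟨B, hB⟩ : ∃ B, B = x M := ⟨_, rfl⟩
  have xb : ∀ i ≤ M, 1 ≤ x i ∧ x i ≤ B := fun i hi => ⟨x0 ▸ mo.monotone (Nat.zero_le i), hB ▸ mo.monotone hi⟩
  have B1 : 1 ≤ B := (xb 0 (by omega)).1.trans (xb 0 (by omega)).2
  have x1 : 1 + γ ≤ x 1 := x0 ▸ g 0 (by omega)
  let T : ℕ → ℝ := fun j => Nat.rec (B + 1 + B / γ) (fun _ t => t * t + 2) j
  have T1 : ∀ j, T (j + 1) = T j * T j + 2 := fun j => rfl
  have T0 : ∀ j, B + 1 + B / γ ≤ T j := fun j => by
    induction j with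
    | zero => exact le_rfl
    | succ j ih => rw [T1]; nlinarith
  have Bg : 0 < B / γ := by positivity
  have Tg : B ≤ γ * T K := by
    have := mul_le_mul_of_nonneg_left (T0 K) g0.le
    have e : γ * (B / γ) = B := by field_simp
    nlinarith
  have TK : 1 ≤ T K := by linarith [T0 K]
  obtain ⟨D, hD⟩ : ∃ D, D = (2 * B + 2) ^ M := ⟨_, rfl⟩
  have D1 : 1 ≤ D := hD ▸ one_le_pow₀ (by linarith)
  obtain ⟨δ, d0, hδ⟩ : ∃ δ : ℝ, 0 < δ ∧ δ * D * T K = γ / 4 := ⟨γ / 4 / (D * T K), by positivity, by field_simp⟩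
  have d1 : δ * D ≤ γ / 4 := by nlinarith [mul_pos d0 (by linarith : 0 < D)]
  have d2 : δ * T K ≤ γ / 4 := by nlinarith [mul_pos d0 (by linarith : 0 < T K)]
  have d3 : δ ≤ γ / 4 := by nlinarith
  let l : ℕ → ℝ := fun i => δ * ((2 * B + 2) ^ i - 1)
  have l0 : ∀ i ≤ M, 0 ≤ l i ∧ l i ≤ δ * D := fun i hi =>
    ⟨mul_nonneg d0.le (sub_nonneg.2 (one_le_pow₀ (by linarith))), mul_le_mul_of_nonneg_left (by
      linarith [pow_le_pow_right₀ (by linarith : 1 ≤ 2 * B + 2) hi]) d0.le⟩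
  let y : ℕ → ℝ := fun i => if i = 0 then 0 else if i < 1 + 2 * M then
    (if i % 2 = 1 then x (i / 2) - l (i / 2) else x (i / 2 - 1) + δ) else if i < 2 + 2 * M + K then T (i - (1 + 2 * M))
    else x (i - (2 + 2 * M + K) + 1) * T K + (1 + x 1) / 2
  have y1 : ∀ i < M, y (1 + 2 * i) = x i - l i := fun i hi => by
    simp [y, hi, show (1 + 2 * i) / 2 = i by omega]
  have y2 : ∀ i < M, y (2 + 2 * i) = x i + δ := fun i hi => by
    simp [y, show 2 + 2 * i < 1 + 2 * M by omega, show (2 + 2 * i) / 2 - 1 = i by omega]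
  have y3 : ∀ j ≤ K, y (1 + 2 * M + j) = T j := fun j hj => by
    simp [y, show 1 + 2 * M + j < 2 + 2 * M + K by omega]
  have y4 : ∀ m, y (2 + 2 * M + K + m) = x (m + 1) * T K + (1 + x 1) / 2 := fun m => by
    simp [y, show ¬2 + 2 * M + K + m < 1 + 2 * M by omega]
  have y0 : y 1 = 1 := by simpa [l, x0] using y1 0 (by omega)
  have gT : ∀ i < M, x i * T K + B ≤ x (i + 1) * T K := fun i hi => by
    nlinarith [g i (by omega)]
  refine ⟨y, by simp [y], y0, fun i hi => ?_, ?_⟩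
  · rcases Nat.eq_zero_or_pos i with rfl | i0
    · rw [zero_add, y0]; simp [y]
    by_cases c1 : i < 1 + 2 * M
    · rcases Nat.even_or_odd' i with ⟨j, rfl | rfl⟩
      · obtain ⟨j, rfl⟩ : ∃ j', j = j' + 1 := ⟨j - 1, by omega⟩
        rw [show 2 * (j + 1) = 2 + 2 * j by omega, y2 j (by omega)]
        by_cases c2 : j + 1 < M
        · rw [show 2 + 2 * j + 1 = 1 + 2 * (j + 1) by omega, y1 _ c2]
          linarith [g j (by omega), (l0 (j + 1) c2.le).2]
        · rw [show 2 + 2 * j + 1 = 1 + 2 * M + 0 by omega, y3 0 (by omega)]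
          linarith [T0 0, (xb j (by omega)).2]
      · rw [show 2 * j + 1 + 1 = 2 + 2 * j by omega, add_comm (2 * j), y1 j (by omega), y2 j (by omega)]
        linarith [(l0 j (by omega)).1]
    by_cases c2 : i < 1 + 2 * M + K
    · obtain ⟨j, rfl⟩ : ∃ j, i = 1 + 2 * M + j := ⟨i - (1 + 2 * M), by omega⟩
      rw [y3 j (by omega), add_assoc _ j, y3 _ (by omega), T1]
      nlinarith
    by_cases c3 : i = 1 + 2 * M + K
    · rw [c3, y3 K le_rfl, show 1 + 2 * M + K + 1 = 2 + 2 * M + K + 0 by omega, y4]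
      simp only [zero_add]
      nlinarith
    · obtain ⟨j, rfl⟩ : ∃ j, i = 2 + 2 * M + K + j := ⟨i - (2 + 2 * M + K), by omega⟩
      rw [y4, add_assoc _ j, y4]
      linarith [gT (j + 1) (by omega)]
  simp only [rlx, List.forall_mem_append, List.forall_mem_map, List.forall_mem_flatMap, List.mem_range,
    List.forall_mem_cons, List.not_mem_nil, false_imp_iff, implies_true, and_true, y0]
  refine ⟨⟨fun e he => ?_, fun j hj => ?_⟩, fun m hm => ?_⟩
  · obtain ⟨⟨a, b, c, d⟩, a1, b1, d1'⟩ := hE e he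
    have q := h e he
    unfold Q4.er at q
    rw [show 1 + 2 * e.2.2.2 + 1 = 2 + 2 * e.2.2.2 by omega, y1 _ a, y1 _ b, y1 _ c, y1 _ d, y2 _ d]
    have xa := xb _ a.le
    have xb' := xb _ b.le
    have xc := xb _ c.le
    have la := l0 _ a.le
    have lb := l0 _ b.le
    have lc := l0 _ c.le
    obtain ⟨m, hm⟩ : ∃ m, e.2.2.2 = m + 1 := ⟨e.2.2.2 - 1, by omega⟩
    have lt : ∀ i, x i < x e.2.2.2 → l i ≤ l m := fun i hi => by
      have := mo.lt_iff_lt.1 hi
      exact mul_le_mul_of_nonneg_left (by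
        linarith [pow_le_pow_right₀ (by linarith : 1 ≤ 2 * B + 2) (by omega : i ≤ m)]) d0.le
    have m1 := lt e.1 (by nlinarith)
    have m2 := lt e.2.1 (by nlinarith)
    have m3 := lt e.2.2.1 (by nlinarith)
    have m4 : l e.2.2.2 = (2 * B + 2) * l m + δ * (2 * B + 1) := by simp only [l, hm, pow_succ]; ring
    have m0 := (l0 m (by omega)).1
    constructor
    · have := mul_le_mul m1 xb'.2 (by linarith) m0
      have := mul_le_mul m2 xa.2 (by linarith) m0
      nlinarith [mul_nonneg la.1 lb.1]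
    · have : (x e.1 - l e.1) * (x e.2.1 - l e.2.1) ≤ x e.1 * x e.2.1 :=
        mul_le_mul (by linarith) (by linarith) (by linarith) (by linarith)
      linarith
  · rw [y3 j hj.le, add_assoc _ j, y3 _ hj, T1]
    constructor <;> nlinarith
  · have e1 : y 3 = x 1 - l 1 := y1 1 (by omega)
    have e2 : y (1 + 2 * M + K + m) ≤ x m * T K + B := by
      rcases Nat.eq_zero_or_pos m with rfl | p
      · rw [add_zero, y3 K le_rfl, x0]; linarith
      · rw [show 1 + 2 * M + K + m = 2 + 2 * M + K + (m - 1) by omega, y4, show m - 1 + 1 = m by omega]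
        linarith [(xb 1 (by omega)).2]
    rw [show 1 + 2 * M + K + m + 1 = 2 + 2 * M + K + m by omega, add_assoc _ m 1, y4, y4, y3 K le_rfl, e1,
      show 4 + 2 * m = 2 + 2 * (m + 1) by omega, show 3 + 2 * m = 1 + 2 * (m + 1) by omega, y1 _ (by omega),
      y2 _ (by omega)]
    have a := l0 (m + 1) (by omega)
    have b := l0 1 (by omega)
    have c := mul_le_mul_of_nonneg_right a.2 (by linarith : 0 ≤ T K)
    have d := gT m (by omega)
    have e := gT (m + 1) (by omega)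
    have f := mul_nonneg a.1 (by linarith : 0 ≤ T K)
    have := (xb 1 (by omega)).2
    have := mul_pos d0 (by linarith : 0 < T K)
    refine ⟨⟨?_, ?_⟩, ?_, ?_⟩ <;> nlinarith

def ifs (a : List Unit × List Q4) : List Unit × List Q4 :=
  (List.replicate (2 + 3 * (3 + 2 * (2 * a.1.length) + 30 * ((t6 a.1.length a.2).length + 1)) +
      (6 * a.1.length + (t6 a.1.length a.2).length + 8 + 2)) (),
    rlx (3 + 2 * (2 * a.1.length) + 30 * ((t6 a.1.length a.2).length + 1))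
      (6 * a.1.length + (t6 a.1.length a.2).length + 8 + 2) (exs (2 * a.1.length) (t6 a.1.length a.2)))

theorem pt_ifs : PT ifs := by
  have h1 : PT fun a : List Unit × List Q4 => t6 a.1.length a.2 := by unfold t6; fun_prop
  have h2 : PT fun a : ℕ × T6 => eqn a.1 a.2 := by unfold eqn; fun_prop
  have h3 : PT fun a : ℕ × ℕ × LR => chain a.1 a.2.1 a.2.2 := by unfold chain; fun_prop
  have h4 : PT fun a : ℕ × List T6 => eqs a.1 a.2 :=
    PT.cons (by fun_prop) (PT.map (h2.comp (g := fun p : (ℕ × List T6) × T6 => (p.1.1, p.2)) (by fun_prop) :) (by fun_prop))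
  have h5 : PT fun a : ℕ × List T6 => exs a.1 a.2 :=
    PT.flatMap (h3.comp (g := fun p : (ℕ × List T6) × ℕ => (p.1.1, p.2, (eqs p.1.1 p.1.2).getD p.2 ([], [])))
      (PT.pair (by fun_prop) (PT.pair (by fun_prop) (PT.getD (h4.comp (by fun_prop)) (by fun_prop) (by fun_prop)))) :)
      (by fun_prop)
  have h6 : PT fun a : List Unit × List Unit × List Q4 => rlx a.1.length a.2.1.length a.2.2 := by
    unfold rlx; fun_prop
  have h7 : PT fun a : List Unit × List T6 => (List.replicate (2 + 3 * (3 + 2 * (2 * a.1.length) + 30 * (a.2.length + 1)) +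
      (6 * a.1.length + a.2.length + 8 + 2)) (), rlx (3 + 2 * (2 * a.1.length) + 30 * (a.2.length + 1))
      (6 * a.1.length + a.2.length + 8 + 2) (exs (2 * a.1.length) a.2)) :=
    PT.pair (by fun_prop) ((h6.comp (g := fun a : List Unit × List T6 =>
      (List.replicate (3 + 2 * (2 * a.1.length) + 30 * (a.2.length + 1)) (),
        List.replicate (6 * a.1.length + a.2.length + 8 + 2) (), exs (2 * a.1.length) a.2))
      (PT.pair (by fun_prop) (PT.pair (by fun_prop)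
        (h5.comp (g := fun a : List Unit × List T6 => (2 * a.1.length, a.2)) (by fun_prop) :)))).congr fun a => by simp)
  exact (h7.comp (g := fun a : List Unit × List Q4 => (a.1, t6 a.1.length a.2)) (PT.pair (by fun_prop) h1) :)

/-- hardness from interval constraints -/
theorem etr_of_ifs {β : Type} [Enc β] {B : β → Prop} (f : List Unit × List Q4 → β) (hf : PT f)
    (h : ∀ M E, 2 ≤ M.length → (∀ e ∈ E, Ok M.length e) → ((∃ y, IFS M.length E y) ↔ B (f (M, E)))) : Red ETR B :=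
  etr_of_bq (fun a => f (ifs a)) (hf.comp pt_ifs) fun M E h0 hE => by
    have a := t6_lt h0 hE
    have b := exs_lt (by omega) a
    have := h (ifs (M, E)).1 (ifs (M, E)).2 (by simp only [ifs, List.length_replicate]; omega) (by
      simp only [ifs, List.length_replicate]; exact rlx_ok (by omega) b)
    rw [← this]
    simp only [ifs, List.length_replicate]
    constructor
    · rintro ⟨x, x0, xb, hx⟩
      obtain ⟨u, u0, ub, hu⟩ := t6_yes h0 hE x0 xb hx
      obtain ⟨z, z0, zm, hz⟩ := exs_yes (by omega) a u0 ub hu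
      exact rlx_yes (by omega) b z0 zm hz
    · rintro ⟨y, hy⟩
      obtain ⟨c, d⟩ := rlx_no (by omega) b hy
      by_contra hno
      obtain ⟨u, u0, hu⟩ := exs_no (by omega) a (x := fun i => y (1 + 2 * i)) c (by
        have : (2 : ℝ) ^ 6 ≤ 2 ^ 2 ^ (6 * M.length + (t6 M.length E).length + 8) :=
          pow_le_pow_right₀ one_le_two (by have := @Nat.lt_two_pow_self (6 * M.length + (t6 M.length E).length + 8); omega)
        rw [mul_one_div, div_le_div_iff₀ (by positivity) two_pos]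
        linarith) d
      exact t6_no h0 hE hno u u0 fun t ht => by simpa only [mul_one_div] using hu t ht

end Pool.Agent.Lib.SG
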