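import Pool.Agent.Lib.helper15.Sg1

/-! Strict sign patterns of bounded rank: copies of objects, normal forms and lifting. -/

namespace Pool.Agent.Lib.SG

open Pool.Agent.Lib.CX Pool.Agent.Lib.ER Filter Topology Module

set_option synthInstance.maxSize 4000

/-- `x` is positive if `b` holds and negative otherwise -/
def S (b : Prop) (x : ℝ) : Prop := (b → 0 < x) ∧ (¬b → x < 0)

/-- `x` has the sign of `z` -/
def Sg (z : ℤ) (x : ℝ) : Prop := (0 < z → 0 < x) ∧ (z = 0 → x = 0) ∧ (z < 0 → x < 0)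

@[simp] theorem Sg_one {x} : Sg 1 x ↔ 0 < x := by simp [Sg]
@[simp] theorem Sg_zero {x} : Sg 0 x ↔ x = 0 := by simp [Sg]
@[simp] theorem Sg_neg {x} : Sg (-1) x ↔ x < 0 := by simp [Sg]
@[simp] theorem S_true {x} : S True x ↔ 0 < x := by simp [S]
@[simp] theorem S_false {x} : S False x ↔ x < 0 := by simp [S]

theorem S.mul {b x c} (h : S b x) (hc : 0 < c) : S b (c * x) :=
  ⟨fun q => mul_pos hc (h.1 q), fun q => mul_neg_of_pos_of_neg hc (h.2 q)⟩

theorem S.of_mul {b x c} (hc : 0 < c) (h : S b (c * x)) : S b x := by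
  have := h.mul (inv_pos.2 hc)
  rwa [inv_mul_cancel_left₀ hc.ne'] at this

theorem Sg.of_mul {b x c} (hc : 0 < c) (h : Sg b (c * x)) : Sg b x :=
  ⟨fun q => (mul_pos_iff_of_pos_left hc).1 (h.1 q), fun q => (mul_eq_zero.1 (h.2.1 q)).resolve_left hc.ne',
    fun q => by have := h.2.2 q; by_contra r; nlinarith⟩

theorem S.iff {b x} (h : S b x) : b ↔ 0 < x := ⟨h.1, fun q => by by_contra r; linarith [h.2 r]⟩

theorem ev_S {b : Prop} {g : ℝ → ℝ} (hg : Continuous g) (h : S b (g 0)) (i : ℕ) :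
    ∀ᶠ t in 𝓝[>] (0 : ℝ), S b (t ^ i * g t) := by
  have : ∀ᶠ t in 𝓝 (0 : ℝ), S b (g t) := by
    by_cases q : b
    · exact (hg.continuousAt.eventually (lt_mem_nhds (h.1 q))).mono fun t ht => ⟨fun _ => ht, fun r => (r q).elim⟩
    · exact (hg.continuousAt.eventually (gt_mem_nhds (h.2 q))).mono fun t ht => ⟨fun r => (q r).elim, fun _ => ht⟩
  filter_upwards [this.filter_mono nhdsWithin_le_nhds, self_mem_nhdsWithin] with t a c
  exact a.mul (pow_pos c i)

theorem ev_all {α β : Type} {f : Filter α} (l : List β) {p : β → α → Prop} (h : ∀ b ∈ l, ∀ᶠ t in f, p b t) :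
    ∀ᶠ t in f, ∀ b ∈ l, p b t := ((List.finite_toSet l).eventually_all.2 h :)

section
variable {V W : Type} [AddCommGroup V] [Module ℝ V] [AddCommGroup W] [Module ℝ W]

theorem comb2 (f : V →ₗ[ℝ] ℝ) (u v : V) : ∃ a b : ℝ, 0 < a ∧ 0 < b ∧ (0 < f u → f v < 0 → f (a • u + b • v) = 0) := by
  by_cases h : 0 < f u ∧ f v < 0
  · exact ⟨-f v, f u, neg_pos.2 h.2, h.1, fun _ _ => by simp; ring⟩
  · exact ⟨1, 1, one_pos, one_pos, fun a b => (h ⟨a, b⟩).elim⟩

/-- signs common to all `v σ` pass to `w` -/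
def Cn {ι : Type} (v : ι → V) (w : V) : Prop := ∀ (φ : V →ₗ[ℝ] ℝ) b, (∀ σ, S b (φ (v σ))) → S b (φ w)

theorem S.comb {b} {φ : V →ₗ[ℝ] ℝ} {u v : V} {a c : ℝ} (ha : 0 < a) (hc : 0 < c) (h : S b (φ u)) (h' : S b (φ v)) :
    S b (φ (a • u + c • v)) := by
  simp only [map_add, map_smul, smul_eq_mul]
  exact ⟨fun q => add_pos ((h.mul ha).1 q) ((h'.mul hc).1 q), fun q => add_neg ((h.mul ha).2 q) ((h'.mul hc).2 q)⟩

theorem comb4 (v : Bool × Bool → V) (f g : V →ₗ[ℝ] ℝ) : ∃ w, Cn v w ∧ ((∀ σ, S σ.1 (f (v σ))) → f w = 0) ∧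
    ((∀ σ, S σ.2 (g (v σ))) → g w = 0) := by
  choose a b a0 b0 h using fun t => comb2 f (v (true, t)) (v (false, t))
  obtain ⟨c, d, c0, d0, k⟩ := comb2 g (a true • v (true, true) + b true • v (false, true))
    (a false • v (true, false) + b false • v (false, false))
  refine ⟨_, fun φ s q => S.comb c0 d0 (S.comb (a0 _) (b0 _) (q _) (q _)) (S.comb (a0 _) (b0 _) (q _) (q _)),
    fun q => ?_, fun q => k ((S.comb (a0 _) (b0 _) (q (true, true)) (q (false, true))).1 rfl)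
      ((S.comb (a0 _) (b0 _) (q (true, false)) (q (false, false))).2 (by simp))⟩
  have := fun t => h t ((q (true, t)).1 rfl) ((q (false, t)).2 (by simp))
  rw [map_add, map_smul, map_smul, this, this]; simp

variable {P L : Type} {vp : P → Prop} {vl : L → Prop} {kp : P → ℕ} {kl : L → ℕ}

theorem half (B : V →ₗ[ℝ] W →ₗ[ℝ] ℝ) {z : P → L → Prop} {pp pp' : P → L} {p : P → Bool × Bool → V}
    {ℓ : L → Bool × Bool → W} (h : ∀ a b, z a b → kl b ≤ kp a → (b = pp a ∧ ∀ σ τ, S σ.1 (B (p a σ) (ℓ b τ))) ∨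
      b = pp' a ∧ ∀ σ τ, S σ.2 (B (p a σ) (ℓ b τ))) {k k' : ℕ} (hk : k' ≤ k + 1) {q : P → V} {m : L → W}
    (h1 : ∀ a, Cn (p a) (q a)) (h2 : ∀ b, Cn (ℓ b) (m b)) (h3 : ∀ a b, z a b → kp a < k → kl b < k' → B (q a) (m b) = 0) :
    ∃ q : P → V, (∀ a, Cn (p a) (q a)) ∧ ∀ a b, z a b → kp a < k + 1 → kl b < k' → B (q a) (m b) = 0 := by
  choose w w1 w2 w3 using fun a => comb4 (p a) (B.flip (m (pp a))) (B.flip (m (pp' a)))
  refine ⟨fun a => if kp a = k then w a else q a, fun a => by dsimp only; split_ifs; exacts [w1 a, h1 a],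
    fun a b c d e => ?_⟩
  dsimp only
  split_ifs with r
  · rcases h a b c (by omega) with ⟨rfl, s⟩ | ⟨rfl, s⟩
    · exact w2 a fun σ => h2 _ (B (p a σ)) _ (s σ)
    · exact w3 a fun σ => h2 _ (B (p a σ)) _ (s σ)
  · exact h3 a b c (by omega) e

end

section
variable {P : Type} [DecidableEq P]

/-- the sign prescribed for two copies -/
def sg (Z : P → P → ℤ) (kp kl : P → ℕ) (pp pl : P → P) (a b : P × Bool × Bool) : Bool :=
  if Z a.1 b.1 = 0 then (if kl b.1 < kp a.1 then (if b.1 = pp a.1 then a.2.1 else a.2.2) else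
    if a.1 = pl b.1 then b.2.1 else b.2.2) else decide (0 < Z a.1 b.1)

variable {V W : Type} [AddCommGroup V] [Module ℝ V] [AddCommGroup W] [Module ℝ W] (B : V →ₗ[ℝ] W →ₗ[ℝ] ℝ)
  {Z : P → P → ℤ} {kp kl : P → ℕ} {pp pp' pl pl' : P → P} {os : List P}

theorem cp_sound (hz : ∀ a ∈ os, ∀ b ∈ os, Z a b = 0 → (kl b < kp a ∧ (b = pp a ∨ b = pp' a)) ∨
      kp a < kl b ∧ (a = pl b ∨ a = pl' b)) {K} (hK : ∀ a, kp a < K ∧ kl a < K) {p : P × Bool × Bool → V}
    {ℓ : P × Bool × Bool → W} (h : ∀ a b, a.1 ∈ os → b.1 ∈ os → S (sg Z kp kl pp pl a b) (B (p a) (ℓ b))) :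
    ∃ (q : P → V) (m : P → W), ∀ a ∈ os, ∀ b ∈ os, Sg (Z a b) (B (q a) (m b)) := by
  have : ∀ k, ∃ (q : P → V) (m : P → W), (∀ a, Cn (fun σ => p (a, σ)) (q a)) ∧ (∀ a, Cn (fun σ => ℓ (a, σ)) (m a)) ∧
      ∀ a b, a ∈ os ∧ b ∈ os ∧ Z a b = 0 → kp a < k → kl b < k → B (q a) (m b) = 0 := fun k => by
    induction k with
    | zero =>
      choose q hq using fun a => comb4 (fun σ => p (a, σ)) 0 0
      choose m hm using fun a => comb4 (fun σ => ℓ (a, σ)) 0 0
      exact ⟨q, m, fun a => (hq a).1, fun a => (hm a).1, by simp⟩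
    | succ k ih =>
      obtain ⟨q, m, h1, h2, h3⟩ := ih
      obtain ⟨q, h4, h5⟩ := half B (pp := pp) (pp' := pp') (fun a b ⟨c, d, e⟩ f => by
        have g := fun σ τ => h (a, σ) (b, τ) c d
        obtain ⟨r, s⟩ := (hz a c b d e).resolve_right (by omega)
        simp only [sg, e, r, if_true] at g
        by_cases t : b = pp a
        · exact .inl ⟨t, by simpa only [if_pos t] using g⟩
        · exact .inr ⟨s.resolve_left t, by simpa only [if_neg t] using g⟩) k.le_succ h1 h2 h3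
      obtain ⟨m, h6, h7⟩ := half B.flip (z := fun b a => a ∈ os ∧ b ∈ os ∧ Z a b = 0) (pp := pl) (pp' := pl')
        (fun b a ⟨c, d, e⟩ f => by
          have g := fun σ τ => h (a, τ) (b, σ) c d
          obtain ⟨r, s⟩ := (hz a c b d e).resolve_left (by omega)
          simp only [sg, e, r.le.not_gt, if_true, if_false] at g
          by_cases t : a = pl b
          · exact .inl ⟨t, by simpa only [if_pos t, LinearMap.flip_apply] using g⟩
          · exact .inr ⟨s.resolve_left t, by simpa only [if_neg t, LinearMap.flip_apply] using g⟩) le_rfl h2 h4 fun b a c d e => h5 a b c e d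
      exact ⟨q, m, h4, h6, fun a b c d e => h7 b a c e d⟩
  obtain ⟨q, m, h1, h2, h3⟩ := this K
  refine ⟨q, m, fun a c b d => ?_⟩
  by_cases e : Z a b = 0
  · rw [e, Sg_zero]; exact h3 a b ⟨c, d, e⟩ (hK a).1 (hK b).2
  have : S (0 < Z a b) (B (q a) (m b)) := h1 a (B.flip (m b)) _ fun σ => h2 b (B (p (a, σ))) _ fun τ => by
    simpa [sg, e] using h (a, σ) (b, τ) c d
  exact ⟨this.1, fun r => (e r).elim, fun r => this.2 r.not_gt⟩

theorem solve2 {q q' : V} {u v : W} (h1 : B q u = 0) (h2 : B q v ≠ 0) (h3 : B q' u ≠ 0) (σ : Bool × Bool) :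
    ∃ δ, S σ.1 (B δ u) ∧ S σ.2 (B δ v) := by
  let s : Bool → ℝ := fun b => if b then 1 else -1
  have : ∀ b : Bool, S b (s b) := fun b => by cases b <;> simp [s]
  refine ⟨(s σ.1 / B q' u) • q' + ((s σ.2 - s σ.1 / B q' u * B q' v) / B q v) • q, ?_, ?_⟩
  · convert this σ.1 using 1; simp [h1, h3]
  · convert this σ.2 using 1; simp [h2]

theorem Sg.ne {z x} (h : Sg z x) (q : z ≠ 0) : x ≠ 0 := by
  rcases q.lt_or_gt with r | r
  exacts [(h.2.2 r).ne, (h.1 r).ne']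

theorem cp_complete (hz : ∀ a ∈ os, ∀ b ∈ os, Z a b = 0 → (kl b < kp a ∧ (b = pp a ∨ b = pp' a)) ∨
      kp a < kl b ∧ (a = pl b ∨ a = pl' b)) {K} (hK : ∀ a, kp a < K ∧ kl a < K)
    (w1 : ∀ a ∈ os, pp a ∈ os ∧ pp' a ∈ os ∧ ∃ q ∈ os, ∃ q' ∈ os, Z q (pp a) = 0 ∧ Z q (pp' a) ≠ 0 ∧ Z q' (pp a) ≠ 0)
    (w2 : ∀ a ∈ os, pl a ∈ os ∧ pl' a ∈ os ∧ ∃ q ∈ os, ∃ q' ∈ os, Z (pl a) q = 0 ∧ Z (pl' a) q ≠ 0 ∧ Z (pl a) q' ≠ 0)
    {q : P → V} {m : P → W} (h : ∀ a ∈ os, ∀ b ∈ os, Sg (Z a b) (B (q a) (m b))) {e : V} {f : W}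
    (hf : ∀ a ∈ os, 0 < B (q a) f ∧ 0 < B e (m a)) : ∃ (p : P × Bool × Bool → V) (ℓ : P × Bool × Bool → W),
      (∀ a b, a.1 ∈ os → b.1 ∈ os → S (sg Z kp kl pp pl a b) (B (p a) (ℓ b))) ∧
      ∀ a, a.1 ∈ os → 0 < B (p a) f ∧ 0 < B e (ℓ a) := by
  have a1 : ∀ a : P × Bool × Bool, ∃ δ, a.1 ∈ os → S a.2.1 (B δ (m (pp a.1))) ∧ S a.2.2 (B δ (m (pp' a.1))) := fun a => by
    by_cases c : a.1 ∈ os
    · obtain ⟨r1, r2, x, r3, y, r4, r5, r6, r7⟩ := w1 _ c
      exact (solve2 B ((h _ r3 _ r1).2.1 r5) ((h _ r3 _ r2).ne r6) ((h _ r4 _ r1).ne r7) a.2).imp fun _ t _ => t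
    · simp [c]
  have a2 : ∀ a : P × Bool × Bool, ∃ δ, a.1 ∈ os → S a.2.1 (B (q (pl a.1)) δ) ∧ S a.2.2 (B (q (pl' a.1)) δ) := fun a => by
    by_cases c : a.1 ∈ os
    · obtain ⟨r1, r2, x, r3, y, r4, r5, r6, r7⟩ := w2 _ c
      exact (solve2 B.flip ((h _ r1 _ r3).2.1 r5) ((h _ r2 _ r3).ne r6) ((h _ r1 _ r4).ne r7) a.2).imp fun _ t _ => t
    · simp [c]
  choose δ hδ using a1
  choose η hη using a2
  let cs := os ×ˢ ([true, false] ×ˢ [true, false])
  have mc : ∀ a : P × Bool × Bool, a ∈ cs ↔ a.1 ∈ os := fun ⟨a, s, t⟩ => by cases s <;> cases t <;> simp [cs]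
  let p : ℝ → P × Bool × Bool → V := fun t a => q a.1 + t ^ (K - kp a.1) • δ a
  let ℓ : ℝ → P × Bool × Bool → W := fun t a => m a.1 + t ^ (K - kl a.1) • η a
  have b1 : ∀ᶠ t in 𝓝[>] (0 : ℝ), ∀ a ∈ cs, ∀ b ∈ cs, S (sg Z kp kl pp pl a b) (B (p t a) (ℓ t b)) :=
    ev_all _ fun a ha => ev_all _ fun b hb => by
      rw [mc] at ha hb
      obtain ⟨i, hi⟩ : ∃ i, K - kp a.1 = i + 1 := ⟨K - kp a.1 - 1, by have := hK a.1; omega⟩
      obtain ⟨j, hj⟩ : ∃ j, K - kl b.1 = j + 1 := ⟨K - kl b.1 - 1, by have := hK b.1; omega⟩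
      have k := h _ ha _ hb
      simp only [p, ℓ, hi, hj, map_add, map_smul, LinearMap.add_apply, LinearMap.smul_apply, smul_eq_mul, sg]
      by_cases c : Z a.1 b.1 = 0
      · rw [k.2.1 c, if_pos c]
        rcases hz _ ha _ hb c with ⟨r, s⟩ | ⟨r, s⟩
        · obtain ⟨n, rfl⟩ : ∃ n, j = i + n + 1 := ⟨j - i - 1, by have := hK a.1; omega⟩
          rw [if_pos r]
          refine (ev_S (g := fun t => B (δ a) (m b.1) + t ^ (n + 1) * (B (q a.1) (η b) + t ^ (i + 1) * B (δ a) (η b)))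
            (by fun_prop) ?_ (i + 1)).mono fun t ht => by convert ht using 1; ring
          simp only [pow_succ, mul_zero, zero_mul, add_zero]
          split_ifs with u
          · exact u ▸ (hδ a ha).1
          · exact s.resolve_left u ▸ (hδ a ha).2
        · obtain ⟨n, rfl⟩ : ∃ n, i = j + n + 1 := ⟨i - j - 1, by have := hK b.1; omega⟩
          rw [if_neg r.le.not_gt]
          refine (ev_S (g := fun t => B (q a.1) (η b) + t ^ (n + 1) * (B (δ a) (m b.1) + t ^ (j + 1) * B (δ a) (η b)))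
            (by fun_prop) ?_ (j + 1)).mono fun t ht => by convert ht using 1; ring
          simp only [pow_succ, mul_zero, zero_mul, add_zero]
          split_ifs with u
          · exact u ▸ (hη b hb).1
          · exact s.resolve_left u ▸ (hη b hb).2
      · rw [if_neg c]
        refine (ev_S (g := fun t => B (q a.1) (m b.1) + t ^ (i + 1) * B (δ a) (m b.1) + t ^ (j + 1) *
          (B (q a.1) (η b) + t ^ (i + 1) * B (δ a) (η b))) (by fun_prop) ?_ 0).mono fun t ht => by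
            convert ht using 1; ring
        simp only [pow_succ, mul_zero, zero_mul, add_zero, decide_eq_true_eq]
        exact ⟨k.1, fun r => k.2.2 (by omega)⟩
  have b2 : ∀ᶠ t in 𝓝[>] (0 : ℝ), ∀ a ∈ cs, 0 < B (p t a) f ∧ 0 < B e (ℓ t a) := ev_all _ fun a ha => by
    rw [mc] at ha
    obtain ⟨i, hi⟩ : ∃ i, K - kp a.1 = i + 1 := ⟨K - kp a.1 - 1, by have := hK a.1; omega⟩
    obtain ⟨j, hj⟩ : ∃ j, K - kl a.1 = j + 1 := ⟨K - kl a.1 - 1, by have := hK a.1; omega⟩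
    simp only [p, ℓ, hi, hj, map_add, map_smul, LinearMap.add_apply, LinearMap.smul_apply, smul_eq_mul]
    exact ((ev_S (b := True) (g := fun t => B (q a.1) f + t ^ (i + 1) * B (δ a) f) (by fun_prop)
      (by simpa using (hf _ ha).1) 0).mono fun t ht => by simpa using ht).and
      ((ev_S (b := True) (g := fun t => B e (m a.1) + t ^ (j + 1) * B e (η a)) (by fun_prop)
      (by simpa using (hf _ ha).2) 0).mono fun t ht => by simpa using ht)
  obtain ⟨t, t1, t2⟩ := (b1.and b2).exists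
  exact ⟨p t, ℓ t, fun a b c d => t1 a ((mc a).2 c) b ((mc b).2 d), fun a c => t2 a ((mc a).2 c)⟩

end

/-- points, hyperplanes and the pairs with positive sign -/
abbrev Inst (N : Type) := List N × List N × List (N × N)

variable {N : Type}

/-- realisation in normal form -/
def NF (m : ℕ) (I : Inst N) : Prop := ∃ (α β : N → ℝ) (y z : N → Fin m → ℝ),
  ∀ i ∈ I.1, ∀ j ∈ I.2.1, S ((i, j) ∈ I.2.2) (α i + β j + y i ⬝ᵥ z j)

/-- realisation in rank at most `r` -/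
def SR (r : ℕ) (I : Inst N) : Prop := ∃ (V : Type) (_ : AddCommGroup V) (_ : Module ℝ V) (_ : Module.Finite ℝ V),
  finrank ℝ V ≤ r ∧ ∃ (p : N → V) (ℓ : N → V →ₗ[ℝ] ℝ), ∀ i ∈ I.1, ∀ j ∈ I.2.1, S ((i, j) ∈ I.2.2) (ℓ j (p i))

def Hard (N : Type) [Enc N] (m : ℕ) : Prop := ∀ (β : Type) [Enc β] (B : β → Prop) (f : Inst N → β), PT f →
  (∀ I, NF m I → B (f I)) → (∀ I, B (f I) → SR (m + 2) I) → Red ETR B

theorem ker_le {V : Type} [AddCommGroup V] [Module ℝ V] [Module.Finite ℝ V] {φ : V →ₗ[ℝ] ℝ} (h : φ ≠ 0) :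
    finrank ℝ (LinearMap.ker φ) + 1 = finrank ℝ V := Module.Dual.finrank_ker_add_one_of_ne_zero h

theorem SR.nil {r} {I : Inst N} (h : I.1 = [] ∨ I.2.1 = []) : SR r I :=
  ⟨Fin 0 → ℝ, inferInstance, inferInstance, inferInstance, by simp, 0, 0, by rcases h with h | h <;> simp [h]⟩

def lift [Inhabited N] (I : Inst N) : Inst (Bool × N) :=
  ([true, false] ×ˢ I.1, (true, default) :: I.2.1.map fun j => (false, j),
    (I.1.map fun i => ((true, i), (true, default))) ++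
      ([true, false] ×ˢ I.2.2).map fun e => ((e.1, e.2.1), (false, e.2.2)))

theorem Hard.succ [Enc N] [Inhabited N] {m} (h : Hard N m) : Hard (Bool × N) (m + 1) := fun β _ B f hf h1 h2 => by
  have m1 : ∀ (I : Inst N) s i, i ∈ I.1 → (((s, i), (true, default)) ∈ (lift I).2.2 ↔ s = true) := fun I s i hi => by
    cases s <;> simp [lift, hi]
  have m2 : ∀ (I : Inst N) s i j, ((s, i), (false, j)) ∈ (lift I).2.2 ↔ (i, j) ∈ I.2.2 := fun I s i j => by
    cases s <;> simp [lift]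
  have m3 : ∀ (I : Inst N) s i, (s, i) ∈ (lift I).1 ↔ i ∈ I.1 := fun I s i => by cases s <;> simp [lift]
  refine h β B (fun I => f (lift I)) (hf.comp (by unfold lift; fun_prop)) (fun I ⟨α, β, y, z, k⟩ => h1 _ ?_) fun I b => ?_
  · obtain ⟨T, hT⟩ := (ev_all (f := atTop) I.1 (p := fun i (T : ℝ) => |α i| < T) fun i _ => eventually_gt_atTop _).exists
    refine ⟨fun i => α i.2, fun j => if j.1 then 0 else β j.2, fun i => Fin.cons (if i.1 then 1 else -1) (y i.2),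
      fun j => if j.1 then Fin.cons T 0 else Fin.cons 0 (z j.2), fun ⟨s, i⟩ hi j hj => ?_⟩
    rw [m3] at hi
    simp only [lift, List.mem_cons, List.mem_map] at hj
    rcases hj with rfl | ⟨j, hj, rfl⟩
    · have := abs_lt.1 (hT i hi)
      rw [m1 I s i hi]
      cases s <;> simp [dotProduct, Fin.sum_univ_succ] <;> linarith [this.1, this.2]
    · rw [m2]
      simpa [dotProduct, Fin.sum_univ_succ] using k i hi j hj
  · obtain ⟨V, _, _, _, r, p, ℓ, k⟩ := h2 _ b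
    have k1 : ∀ s, ∀ i ∈ I.1, S (s = true) (ℓ (true, default) (p (s, i))) := fun s i hi =>
      propext (m1 I s i hi) ▸ k _ ((m3 _ _ _).2 hi) _ (by simp [lift])
    by_cases c : I.1 = []
    · exact .nil (.inl c)
    obtain ⟨i0, hi0⟩ := List.exists_mem_of_ne_nil _ c
    have := ker_le (φ := ℓ (true, default)) fun q => by simpa [q] using k1 true i0 hi0
    choose a b a0 b0 e using fun i => comb2 (ℓ (true, default)) (p (true, i)) (p (false, i))
    classical
    refine ⟨LinearMap.ker (ℓ (true, default)), inferInstance, inferInstance, inferInstance, by omega,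
      fun i => if hi : i ∈ I.1 then ⟨_, e i ((k1 true i hi).1 rfl) ((k1 false i hi).2 (by simp))⟩ else 0,
      fun j => (ℓ (false, j)).domRestrict _, fun i hi j hj => ?_⟩
    have := fun s => propext (m2 I s i j) ▸ k _ ((m3 _ s _).2 hi) (false, j) (by simp [lift, hj])
    simp only [hi, dif_pos, LinearMap.domRestrict_apply]
    exact S.comb (a0 i) (b0 i) (this true) (this false)

end Pool.Agent.Lib.SG
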