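import Pool.Agent.Lib.helper15.Sg2

/-! A point-line configuration with known signs for every system of interval constraints. -/

namespace Pool.Agent.Lib.SG

open Pool.Agent.Lib.CX Pool.Agent.Lib.ER Filter Topology Module

set_option synthInstance.maxSize 4000

abbrev Ob := ℕ × ℕ

def cmp (i j : ℕ) : ℤ := if j < i then 1 else if i = j then 0 else -1
def thr (i j : ℕ) : ℤ := if j ≤ i then 1 else -1
def gd (E : List Q4) (g : ℕ) : Q4 := E.getD g (0, 0, 0, 0)
def mu (E : List Q4) (l : Ob) : ℕ :=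
  if l.1 = 4 then 1 else if l.1 = 5 then (gd E l.2).1 else if l.1 = 6 then (gd E l.2).2.1 else (gd E l.2).2.2.2 + 1
def xi (E : List Q4) (p : Ob) : ℕ := if p.1 = 2 then p.2 else if p.1 = 5 then (gd E p.2).2.2.1 else 0
def tab : List ℤ := [-1, 0, -1, 0, -1, 0, 1, 0, 1, -1, 0, 1, 1, 1, 0, 1, 0, 0, 1, 1, 1, -1, -1, 0, 0]

def Z (E : List Q4) (p l : Ob) : ℤ :=
  if p.1 = 0 then (if l.1 = 0 ∨ l.1 = 1 ∨ l.1 = 3 then 0 else 1) else
  if p.1 = 1 then (if l.1 = 1 ∨ l.1 = 2 then 0 else 1) else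
  if l.1 = 0 then (if p.1 = 2 then 0 else 1) else
  if l.1 = 1 then (if p.1 < 6 then -1 else 0) else
  if l.1 = 2 then (if p.1 < 6 then cmp (xi E p) l.2 else -1) else
  if p.1 = 2 then (if l.1 = 3 then -1 else if l.1 = 7 then thr p.2 (mu E l) else cmp p.2 (mu E l)) else
  if 6 ≤ p.1 ∧ l.1 = 3 then 1 else if l.2 < p.2 then 1 else
  if p.2 < l.2 then (if 6 ≤ p.1 ∨ l.1 = 3 then -1 else thr (xi E p) (mu E l)) else tab.getD (5 * (p.1 - 3) + (l.1 - 3)) 1

def obs (M n : ℕ) : List Ob := (0, 0) :: (1, 0) :: (((List.range M).map fun i => (2, i)) ++ [3, 4, 5, 6, 7] ×ˢ List.range n)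

theorem mem_obs {M n t i} : (t, i) ∈ obs M n ↔ t ≤ 1 ∧ i = 0 ∨ t = 2 ∧ i < M ∨ 3 ≤ t ∧ t < 8 ∧ i < n := by
  simp [obs, and_comm]; omega

def kp (o : Ob) : ℕ := [1, 1, 1, 3, 7, 9, 5, 5].getD o.1 0
def kl (o : Ob) : ℕ := [0, 0, 2, 8, 4, 6, 4, 10].getD o.1 0
def pp (E : List Q4) (o : Ob) : Ob := if 3 ≤ o.1 ∧ o.1 < 6 then (2, xi E o) else (1, 0)
def pp' (o : Ob) : Ob := [(0, 0), (0, 0), (0, 0), (0, 0), (5, o.2), (3, o.2), (4, o.2), (6, o.2)].getD o.1 (0, 0)
def pl (E : List Q4) (o : Ob) : Ob := if o.1 < 3 then (1, 0) else if o.1 = 3 then (0, 0) else if o.1 = 7 then o else (2, mu E o)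
def pl' (o : Ob) : Ob := [(2, 0), (2, 0), o, (4, o.2), (3, o.2), (6, o.2), (3, o.2), (5, o.2)].getD o.1 (0, 0)

theorem cmp0 {i j} : cmp i j = 0 ↔ i = j := by
  unfold cmp; split_ifs with a b
  exacts [by simp [a.ne'], by simp [b], by simp [b]]
theorem thr0 {i j} : thr i j ≠ 0 := by unfold thr; split_ifs <;> omega

theorem hK (a : Ob) : kp a < 11 ∧ kl a < 11 := by
  obtain ⟨t, i⟩ := a
  by_cases h : t < 8
  · interval_cases t <;> simp [kp, kl]
  · simp only [kp, kl]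
    rw [List.getD_eq_default _ _ (by simp; omega), List.getD_eq_default _ _ (by simp; omega)]; omega

theorem hz {M n E} : ∀ a ∈ obs M n, ∀ b ∈ obs M n, Z E a b = 0 → (kl b < kp a ∧ (b = pp E a ∨ b = pp' a)) ∨
    kp a < kl b ∧ (a = pl E b ∨ a = pl' b) := by
  rintro ⟨t, i⟩ ha ⟨s, j⟩ hb h
  rw [mem_obs] at ha hb
  have ht : t < 8 := by omega
  have hs : s < 8 := by omega
  have := @thr0
  interval_cases t <;> interval_cases s <;> simp [Z, cmp0, tab, xi, this] at h <;>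
    simp [kp, kl, pp, pp', pl, pl', xi] <;> first | omega | (split_ifs at h <;> first | omega | simp [this] at h)

variable {M : ℕ} {E : List Q4}

theorem gd_ok (hE : ∀ e ∈ E, Ok M e) {g} (h : g < E.length) : Ok M (gd E g) := hE _ (by simp [gd, h])

theorem w1 (h2 : 2 ≤ M) (hE : ∀ e ∈ E, Ok M e) : ∀ a ∈ obs M E.length, pp E a ∈ obs M E.length ∧ pp' a ∈ obs M E.length ∧
    ∃ q ∈ obs M E.length, ∃ q' ∈ obs M E.length, Z E q (pp E a) = 0 ∧ Z E q (pp' a) ≠ 0 ∧ Z E q' (pp E a) ≠ 0 := by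
  rintro ⟨t, i⟩ ha
  rw [mem_obs] at ha
  have ht : t < 8 := by omega
  have := fun h => gd_ok hE (g := i) h
  unfold Ok at this
  refine ⟨?_, ?_, (1, 0), by simp [mem_obs], if 3 ≤ t ∧ t < 6 then (0, 0) else (2, 0), ?_, ?_⟩ <;>
    interval_cases t <;> simp [pp, pp', mem_obs, xi, Z] <;> omega

theorem w2 (h2 : 2 ≤ M) (hE : ∀ e ∈ E, Ok M e) : ∀ a ∈ obs M E.length, pl E a ∈ obs M E.length ∧ pl' a ∈ obs M E.length ∧
    ∃ q ∈ obs M E.length, ∃ q' ∈ obs M E.length, Z E (pl E a) q = 0 ∧ Z E (pl' a) q ≠ 0 ∧ Z E (pl E a) q' ≠ 0 := by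
  rintro ⟨t, i⟩ ha
  rw [mem_obs] at ha
  have ht : t < 8 := by omega
  have := fun h => gd_ok hE (g := i) h
  unfold Ok at this
  refine ⟨?_, ?_, if 4 ≤ t ∧ t < 7 then (0, 0) else (1, 0), ?_, if 4 ≤ t ∧ t < 7 then (1, 0) else if t = 3 then (2, 0) else (0, 0),
    ?_, ?_⟩ <;> interval_cases t <;> simp [pl, pl', mem_obs, mu, Z] <;> omega

theorem Sg_cmp {i j x} : Sg (cmp i j) x ↔ (j < i → 0 < x) ∧ (i = j → x = 0) ∧ (i < j → x < 0) := by
  unfold cmp; split_ifs with a b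
  · simp [a, a.ne', a.le.not_gt]
  · simp [b]
  · simp [a, b, show i < j by omega]

theorem Sg_thr {i j x} : Sg (thr i j) x ↔ (j ≤ i → 0 < x) ∧ (i < j → x < 0) := by
  unfold thr; split_ifs with a
  · simp [a, a.not_gt]
  · simp [a, show i < j by omega]

theorem basis3 {V : Type} [AddCommGroup V] [Module ℝ V] [Module.Finite ℝ V] (h : finrank ℝ V ≤ 3) {a b c : V}
    {f g k : V →ₗ[ℝ] ℝ} (fa : f a ≠ 0) (fb : f b = 0) (fc : f c = 0) (ga : g a = 0) (gb : g b ≠ 0) (gc : g c = 0)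
    (ka : k a = 0) (kb : k b = 0) (kc : k c ≠ 0) (v : V) : v = (f v / f a) • a + (g v / g b) • b + (k v / k c) • c := by
  by_contra hn
  obtain ⟨u, hu⟩ : ∃ u, u = v - ((f v / f a) • a + (g v / g b) • b + (k v / k c) • c) := ⟨_, rfl⟩
  have f0 : f u = 0 := by simp [hu, *]
  have g0 : g u = 0 := by simp [hu, *]
  have k0 : k u = 0 := by simp [hu, *]
  have : LinearIndependent ℝ ![a, b, c, u] := Fintype.linearIndependent_iff.2 fun x hx => by
    simp only [Fin.sum_univ_four, Matrix.cons_val] at hx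
    have h0 : x 0 = 0 := by simpa [*] using congrArg f hx
    have h1 : x 1 = 0 := by simpa [*] using congrArg g hx
    have h2 : x 2 = 0 := by simpa [*] using congrArg k hx
    have h3 : x 3 = 0 := by simpa [h0, h1, h2, hu, sub_eq_zero, hn] using hx
    intro i; fin_cases i <;> assumption
  have := this.fintype_card_le_finrank
  simp at this; omega

theorem cfg_sound {V : Type} [AddCommGroup V] [Module ℝ V] [Module.Finite ℝ V] (r : finrank ℝ V ≤ 3) (h2 : 2 ≤ M)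
    (hE : ∀ e ∈ E, Ok M e) {q : Ob → V} {m : Ob → V →ₗ[ℝ] ℝ}
    (h : ∀ a ∈ obs M E.length, ∀ b ∈ obs M E.length, Sg (Z E a b) (m b (q a))) : ∃ y, IFS M E y := by
  have k : ∀ t i s j, (t ≤ 1 ∧ i = 0 ∨ t = 2 ∧ i < M ∨ 3 ≤ t ∧ t < 8 ∧ i < E.length) →
      (s ≤ 1 ∧ j = 0 ∨ s = 2 ∧ j < M ∨ 3 ≤ s ∧ s < 8 ∧ j < E.length) → Sg (Z E (t, i) (s, j)) (m (s, j) (q (t, i))) :=
    fun t i s j a b => h _ (mem_obs.2 a) _ (mem_obs.2 b)
  have a1 : 0 < m (2, 0) (q (0, 0)) := by simpa [Z] using k 0 0 2 0 (by omega) (by omega)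
  have a2 : 0 < m (0, 0) (q (1, 0)) := by simpa [Z] using k 1 0 0 0 (by omega) (by omega)
  have a3 : m (1, 0) (q (2, 0)) < 0 := by simpa [Z] using k 2 0 1 0 (by omega) (by omega)
  have id := basis3 r a1.ne' (by simpa [Z] using k 1 0 2 0 (by omega) (by omega))
    (by simpa [Z, cmp, xi] using k 2 0 2 0 (by omega) (by omega)) (by simpa [Z] using k 0 0 0 0 (by omega) (by omega))
    a2.ne' (by simpa [Z] using k 2 0 0 0 (by omega) (by omega)) (by simpa [Z] using k 0 0 1 0 (by omega) (by omega))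
    (by simpa [Z] using k 1 0 1 0 (by omega) (by omega)) a3.ne
  obtain ⟨x, hx⟩ : ∃ x : Ob → ℝ, ∀ p, x p = m (2, 0) (q p) / m (2, 0) (q (0, 0)) := ⟨_, fun _ => rfl⟩
  obtain ⟨Y, hY⟩ : ∃ x : Ob → ℝ, ∀ p, x p = m (0, 0) (q p) / m (0, 0) (q (1, 0)) := ⟨_, fun _ => rfl⟩
  obtain ⟨w, hw⟩ : ∃ x : Ob → ℝ, ∀ p, x p = m (1, 0) (q p) / m (1, 0) (q (2, 0)) := ⟨_, fun _ => rfl⟩
  have id' : ∀ p l, m l (q p) = x p * m l (q (0, 0)) + Y p * m l (q (1, 0)) + w p * m l (q (2, 0)) := fun p l => by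
    rw [hx, hY, hw]
    conv_lhs => rw [id (q p)]
    simp
  have fin : ∀ t i s j, (t = 2 ∧ i < M ∨ 3 ≤ t ∧ t < 6 ∧ i < E.length) →
      (s ≤ 1 ∧ j = 0 ∨ s = 2 ∧ j < M ∨ 3 ≤ s ∧ s < 8 ∧ j < E.length) → Sg (Z E (t, i) (s, j))
      (x (t, i) / w (t, i) * m (s, j) (q (0, 0)) + Y (t, i) / w (t, i) * m (s, j) (q (1, 0)) + m (s, j) (q (2, 0))) :=
    fun t i s j a b => by
      have c := k t i 1 0 (by omega) (by omega)
      simp only [Z, show t ≠ 0 by omega, show t ≠ 1 by omega, show t < 6 by omega, if_true, if_false, one_ne_zero,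
        Sg_neg] at c
      have d : 0 < w (t, i) := hw _ ▸ div_pos_of_neg_of_neg c a3
      refine Sg.of_mul d ?_
      convert k t i s j (by omega) b using 1
      rw [id' (t, i)]; field_simp
  have inf : ∀ t i s j, (6 ≤ t ∧ t < 8 ∧ i < E.length) →
      (s ≤ 1 ∧ j = 0 ∨ s = 2 ∧ j < M ∨ 3 ≤ s ∧ s < 8 ∧ j < E.length) → Sg (Z E (t, i) (s, j))
      (x (t, i) / Y (t, i) * m (s, j) (q (0, 0)) + m (s, j) (q (1, 0))) :=
    fun t i s j a b => by
      have c := k t i 1 0 (by omega) (by omega)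
      have c' := k t i 0 0 (by omega) (by omega)
      simp only [Z, show t ≠ 0 by omega, show t ≠ 1 by omega, show t ≠ 2 by omega, show ¬t < 6 by omega, if_true,
        if_false, one_ne_zero, Sg_zero, Sg_one] at c c'
      have d : 0 < Y (t, i) := hY _ ▸ div_pos c' a2
      refine Sg.of_mul d ?_
      convert k t i s j (by omega) b using 1
      rw [id' (t, i), hw, c]; field_simp; ring
  have y0 : ∀ i < M, Y (2, i) = 0 := fun i hi => by
    rw [hY, show m (0, 0) (q (2, i)) = 0 by simpa [Z] using k 2 i 0 0 (by omega) (by omega), zero_div]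
  obtain ⟨v, hv⟩ : ∃ v : ℕ → ℝ, ∀ i, v i = x (2, i) / w (2, i) := ⟨_, fun _ => rfl⟩
  have yy : ∀ i s j, i < M → (s ≤ 1 ∧ j = 0 ∨ s = 2 ∧ j < M ∨ 3 ≤ s ∧ s < 8 ∧ j < E.length) → Sg (Z E (2, i) (s, j))
      (v i * m (s, j) (q (0, 0)) + m (s, j) (q (2, 0))) := fun i s j a b => by
    simpa [y0 i a, hv] using fin 2 i s j (by omega) b
  have x0 : ∀ t i, (t = 2 ∧ i = 0 ∨ 3 ≤ t ∧ t < 5 ∧ i < E.length) → x (t, i) = 0 := fun t i a => by
    have c := k t i 2 0 (by omega) (by omega)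
    have ht : t < 5 := by omega
    rw [hx, show m (2, 0) (q (t, i)) = 0 by
      interval_cases t <;> first | omega | simpa [Z, xi, cmp, show 2 = 2 → i = 0 by omega] using c |
        simpa [Z, xi, cmp] using c, zero_div]
  have v0 : v 0 = 0 := by rw [hv, x0 2 0 (by omega), zero_div]
  have uH : ∀ s j, (s = 2 ∧ j < M ∨ 4 ≤ s ∧ s < 8 ∧ j < E.length) → 0 < m (s, j) (q (0, 0)) := fun s j a => by
    simpa [Z, show s ≠ 0 by omega, show s ≠ 1 by omega, show s ≠ 3 by omega] using k 0 0 s j (by omega) (by omega)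
  have vV : ∀ j < M, m (2, j) (q (1, 0)) = 0 := fun j a => by simpa [Z] using k 1 0 2 j (by omega) (by omega)
  have vv : ∀ j < M, v j * m (2, j) (q (0, 0)) + m (2, j) (q (2, 0)) = 0 := fun j a => by
    simpa [Z, xi, cmp] using yy j 2 j a (by omega)
  have mo : ∀ i, i + 1 < M → v i < v (i + 1) := fun i a => by
    have c := yy i 2 (i + 1) (by omega) (by omega)
    simp only [Z, xi, Sg_cmp, Nat.reduceEqDiff, if_true, if_false, Nat.reduceLT] at c
    nlinarith [c.2.2 (by omega), vv _ a, uH 2 (i + 1) (by omega)]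
  have v1 : 0 < v 1 := v0 ▸ mo 0 (by omega)
  refine ⟨fun i => v i / v 1, by simp [v0], div_self v1.ne', fun i a => div_lt_div_of_pos_right (mo i a) v1,
    fun e he => ?_⟩
  obtain ⟨g, hg, rfl⟩ := List.getElem_of_mem he
  have ge : E[g] = gd E g := by simp [gd, hg]
  rw [ge]
  obtain ⟨o1, o2, o3, o4, o5, o6, o7⟩ := gd_ok hE hg
  have e1 := yy 1 4 g (by omega) (by omega)
  have e2 := fin 3 g 4 g (by omega) (by omega)
  have e3 := inf 6 g 4 g (by omega) (by omega)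
  have e4 := yy _ 5 g o2 (by omega)
  have e5 := inf 6 g 5 g (by omega) (by omega)
  have e6 := fin 4 g 5 g (by omega) (by omega)
  have e7 := fin 4 g 3 g (by omega) (by omega)
  have e8 := fin 5 g 3 g (by omega) (by omega)
  have e9 := yy _ 6 g o4 (by omega)
  have e10 := fin 3 g 6 g (by omega) (by omega)
  have e11 := inf 7 g 6 g (by omega) (by omega)
  have e12 := fin 5 g 7 g (by omega) (by omega)
  have e13 := inf 7 g 7 g (by omega) (by omega)
  have e14 := fin 5 g 2 (gd E g).2.2.1 (by omega) (by omega)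
  have e15 := vv _ o6
  have e16 := yy (gd E g).2.2.2 7 g (by omega) (by omega)
  have e17 := yy _ 7 g o7 (by omega)
  have e18 := k 0 0 3 g (by omega) (by omega)
  have e19 := k 1 0 3 g (by omega) (by omega)
  have u1 := uH 4 g (by omega)
  have u2 := uH 5 g (by omega)
  have u3 := uH 6 g (by omega)
  have u4 := uH 7 g (by omega)
  have u5 := uH 2 _ (.inl ⟨rfl, o6⟩)
  simp [Z, tab, mu, xi, cmp, thr, x0 3 g (by omega), x0 4 g (by omega), vV _ o6] at e1 e2 e3 e4 e5 e6 e7 e8 e9 e10 e11 e12 e13 e14 e16 e17 e18 e19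
  generalize x (5, g) / w (5, g) = aB, x (6, g) / Y (6, g) = a6, x (7, g) / Y (7, g) = a7, Y (3, g) / w (3, g) = hU,
    Y (4, g) / w (4, g) = hA, Y (5, g) / w (5, g) = hB at *
  rw [e18] at e8
  have f1 : v 1 = -(hU * a6) := mul_right_cancel₀ u1.ne' (by linear_combination e1 - e2 + hU * e3)
  have f2 : v (gd E g).1 = -(hA * a6) := mul_right_cancel₀ u2.ne' (by linear_combination e4 - e6 + hA * e5)
  have f3 : v (gd E g).2.1 = -(hU * a7) := mul_right_cancel₀ u3.ne' (by linear_combination e9 - e10 + hU * e11)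
  have f4 : hB = hA := mul_right_cancel₀ e19.ne' (by linear_combination e8 - e7)
  have f5 : aB = v (gd E g).2.2.1 := mul_right_cancel₀ u5.ne' (by linear_combination e14 - e15)
  have f6 : v (gd E g).1 / v 1 * (v (gd E g).2.1 / v 1) + v (gd E g).2.2.1 / v 1 = (aB - hA * a7) / v 1 := by
    field_simp
    rw [f2, f3, f5, f1]; ring
  have f7 : (aB - hA * a7) * m (7, g) (q (0, 0)) + m (7, g) (q (2, 0)) = 0 := by
    rw [f4] at e12; linear_combination e12 - hA * e13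
  rw [f6]
  constructor <;> refine div_lt_div_of_pos_right ?_ v1 <;> nlinarith

end Pool.Agent.Lib.SG
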