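import Pool.Agent.Lib.helper15.Sg3

/-! Strict sign patterns are hard for ETR in every rank at least three. -/

namespace Pool.Agent.Lib.SG

open Pool.Agent.Lib.CX Pool.Agent.Lib.ER Filter Topology Module

set_option synthInstance.maxSize 4000

abbrev R3 := ℝ × ℝ × ℝ

noncomputable def dot : R3 →ₗ[ℝ] R3 →ₗ[ℝ] ℝ := LinearMap.mk₂ ℝ (fun p l => p.1 * l.1 + p.2.1 * l.2.1 + p.2.2 * l.2.2)
  (fun _ _ _ => by simp; ring) (fun _ _ _ => by simp; ring) (fun _ _ _ => by simp; ring) (fun _ _ _ => by simp; ring)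

variable {M : ℕ} {E : List Q4}

theorem cfg_complete (h2 : 2 ≤ M) (hE : ∀ e ∈ E, Ok M e) {y} (h : IFS M E y) : ∃ q m : Ob → R3,
    (∀ a ∈ obs M E.length, ∀ b ∈ obs M E.length, Sg (Z E a b) (dot (q a) (m b))) ∧
    ∀ a ∈ obs M E.length, 0 < dot (q a) (1, 1, 2) ∧ 0 < dot (1, 1, -1) (m a) := by
  obtain ⟨y0, y1, mo, h⟩ := h
  have lt := fun i j => @mono_of M y mo i j
  have le : ∀ i j, i ≤ j → j < M → y i ≤ y j := fun i j a b => by
    rcases a.lt_or_eq with c | rfl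
    exacts [(lt i j c b).le, le_rfl]
  obtain ⟨D, hD⟩ : ∃ D, D = y (M - 1) := ⟨_, rfl⟩
  have bd : ∀ i < M, 0 ≤ y i ∧ y i ≤ D := fun i hi => ⟨y0 ▸ le 0 i (by omega) hi, hD ▸ le _ _ (by omega) (by omega)⟩
  have D1 : 1 ≤ D := y1 ▸ (bd 1 h2).2
  let μ : Ob → ℝ := fun l => if l.1 = 7 then y (gd E l.2).1 * y (gd E l.2).2.1 + y (gd E l.2).2.2.1 else y (mu E l)
  let κ : Ob → ℝ := fun l => if l.1 < 6 then 1 else y (gd E l.2).2.1
  let η : Ob → ℝ := fun l => if l.1 = 3 then 1 else y (gd E l.2).1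
  let lam : Ob → ℝ := fun l => if l.1 = 6 then 1 else y (gd E l.2).2.1
  have ga : ∀ g < E.length, 1 < y (gd E g).1 ∧ y (gd E g).1 ≤ D ∧ 1 < y (gd E g).2.1 ∧ y (gd E g).2.1 ≤ D ∧
      0 < y (gd E g).2.2.1 := fun g hg => by
    obtain ⟨o1, o2, o3, o4, o5, o6, o7⟩ := gd_ok hE hg
    exact ⟨y1 ▸ lt 1 _ o1 o2, (bd _ o2).2, y1 ▸ lt 1 _ o3 o4, (bd _ o4).2, y0 ▸ lt 0 _ o5 o6⟩
  have gk : ∀ s, ∀ g < E.length, (1 ≤ κ (s, g) ∧ κ (s, g) ≤ D) ∧ (1 ≤ η (s, g) ∧ η (s, g) ≤ D) ∧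
      1 ≤ lam (s, g) ∧ lam (s, g) ≤ D := fun s g hg => by
    obtain ⟨a, b, c, d, -⟩ := ga g hg
    simp only [κ, η, lam]
    refine ⟨?_, ?_, ?_⟩ <;> split_ifs <;> constructor <;> linarith
  have gm : ∀ s, ∀ g < E.length, mu E (s, g) < M ∧ 0 ≤ μ (s, g) ∧ μ (s, g) ≤ D ∧ ∀ i < M, (i < mu E (s, g) → y i < μ (s, g)) ∧
      (mu E (s, g) ≤ i → μ (s, g) ≤ y i ∧ (s = 7 → μ (s, g) < y i)) := fun s g hg => by
    obtain ⟨o1, o2, o3, o4, o5, o6, o7⟩ := gd_ok hE hg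
    have a : mu E (s, g) < M := by simp only [mu]; split_ifs <;> omega
    obtain ⟨b, c⟩ := h (gd E g) (by simp [gd, hg])
    by_cases r : s = 7
    · have e : mu E (s, g) = (gd E g).2.2.2 + 1 := by simp [mu, r]
      simp only [μ, if_pos r, e]
      refine ⟨o7, by linarith [(bd (gd E g).2.2.2 (by omega)).1], by linarith [(bd _ o7).2], fun i hi => ⟨fun q => ?_,
        fun q => ?_⟩⟩
      · linarith [le i (gd E g).2.2.2 (by omega) (by omega)]
      · exact ⟨by linarith [le _ i q hi], fun _ => by linarith [le _ i q hi]⟩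
    · simp only [μ, if_neg r]
      exact ⟨a, (bd _ a).1, (bd _ a).2, fun i hi => ⟨fun q => lt _ _ q a, fun q => ⟨le _ _ q hi, fun q => (r q).elim⟩⟩⟩
  obtain ⟨Λ, L1, L2⟩ : ∃ Λ : ℝ, D + 1 < Λ ∧ ∀ i ∈ List.range M, ∀ l ∈ obs M E.length, y i < μ l → D * D < Λ * (μ l - y i) :=
    ((eventually_gt_atTop _).and (ev_all _ fun i _ => ev_all _ fun l _ => by
      by_cases c : y i < μ l
      · exact ((tendsto_id.atTop_mul_const (sub_pos.2 c)).eventually_gt_atTop (D * D)).mono fun _ a _ => a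
      · simp [c])).exists
  obtain ⟨H, hH⟩ : ∃ H : ℕ → ℝ, ∀ g, H g = Λ ^ (g + 1) := ⟨_, fun _ => rfl⟩
  have H1 : ∀ g, Λ ≤ H g := fun g => hH g ▸ le_self_pow₀ (by linarith) (by omega)
  have H2 : ∀ g g', g < g' → Λ * H g ≤ H g' := fun g g' a => by
    rw [hH, hH, ← pow_succ']; exact pow_le_pow_right₀ (by linarith) (by omega)
  have H0 : ∀ g, 0 < H g := fun g => by linarith [H1 g]
  let q : Ob → R3 := fun p => if p.1 = 0 then (1, 0, 0) else if p.1 = 1 then (0, 1, 0) else if p.1 = 2 then (y p.2, 0, 1)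
    else if p.1 < 6 then (y (xi E p), η p * H p.2, 1) else (-lam p, H p.2, 0)
  let m : Ob → R3 := fun l => if l.1 = 0 then (0, 1, 0) else if l.1 = 1 then (0, 0, -1) else if l.1 = 2 then (1, 0, -y l.2)
    else if l.1 = 3 then (0, 1, -(y (gd E l.2).1 * H l.2)) else (H l.2, κ l, -(μ l * H l.2))
  have q3 : ∀ t i, 3 ≤ t → t < 6 → q (t, i) = (y (xi E (t, i)), η (t, i) * H i, 1) := fun t i a b => by
    simp [q, b, show t ≠ 0 by omega, show t ≠ 1 by omega, show t ≠ 2 by omega]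
  have q6 : ∀ t i, 6 ≤ t → q (t, i) = (-lam (t, i), H i, 0) := fun t i a => by
    simp [q, a, show t ≠ 0 by omega, show t ≠ 1 by omega, show t ≠ 2 by omega]
  have m4 : ∀ t i, 4 ≤ t → m (t, i) = (H i, κ (t, i), -(μ (t, i) * H i)) := fun t i a => by
    simp [m, show t ≠ 0 by omega, show t ≠ 1 by omega, show t ≠ 2 by omega, show t ≠ 3 by omega]
  have xl : ∀ t i, 3 ≤ t → i < E.length → xi E (t, i) < M := fun t i a b => by
    obtain ⟨o1, o2, o3, o4, o5, o6, o7⟩ := gd_ok hE b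
    simp only [xi]; split_ifs <;> omega
  have cm : ∀ i j c, i < M → j < M → 0 < c → Sg (cmp i j) ((y i - y j) * c) := fun i j c a b d => Sg_cmp.2
    ⟨fun e => mul_pos (sub_pos.2 (lt _ _ e a)) d, fun e => by simp [e], fun e => by nlinarith [lt _ _ e b]⟩
  refine ⟨q, m, ?_, ?_⟩
  · rintro ⟨t, i⟩ ha ⟨s, j⟩ hb
    have hb' := hb
    rw [mem_obs] at ha hb
    rcases (by omega : (s = 0 ∧ j = 0 ∨ s = 1 ∧ j = 0 ∨ s = 2 ∧ j < M ∨ s = 3 ∧ j < E.length) ∨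
      4 ≤ s ∧ s < 8 ∧ j < E.length) with hs | ⟨s4, s8, hj⟩
    · rcases (by omega : t = 0 ∧ i = 0 ∨ t = 1 ∧ i = 0 ∨ t = 2 ∧ i < M ∨ 3 ≤ t ∧ t < 6 ∧ i < E.length ∨
        6 ≤ t ∧ t < 8 ∧ i < E.length) with ⟨rfl, rfl⟩ | ⟨rfl, rfl⟩ | ⟨rfl, hi⟩ | ⟨t3, t6, hi⟩ | ⟨t6, t8, hi⟩
      · rcases hs with ⟨rfl, -⟩ | ⟨rfl, -⟩ | ⟨rfl, -⟩ | ⟨rfl, -⟩ <;> simp [Z, q, m, dot]
      · rcases hs with ⟨rfl, -⟩ | ⟨rfl, -⟩ | ⟨rfl, -⟩ | ⟨rfl, -⟩ <;> simp [Z, q, m, dot]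
      · rcases hs with ⟨rfl, -⟩ | ⟨rfl, -⟩ | ⟨rfl, hj⟩ | ⟨rfl, hj⟩ <;> simp [Z, q, m, dot, xi]
        · simpa [sub_eq_add_neg] using cm i j 1 hi hj one_pos
        · exact mul_pos (by linarith [(ga j hj).1]) (H0 j)
      · obtain ⟨-, ⟨a, b⟩, -⟩ := gk t i hi
        rw [q3 t i t3 t6]
        rcases hs with ⟨rfl, -⟩ | ⟨rfl, -⟩ | ⟨rfl, hj⟩ | ⟨rfl, hj⟩ <;>
          simp [Z, m, dot, t6, show t ≠ 0 by omega, show t ≠ 1 by omega, show t ≠ 2 by omega, t6.not_ge]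
        · exact mul_pos (by linarith) (H0 i)
        · simpa [sub_eq_add_neg] using cm _ j 1 (xl t i t3 hi) hj one_pos
        · obtain ⟨c, d, -⟩ := ga j hj
          have := H0 i
          have := H0 j
          split_ifs with r r'
          · rw [Sg_one]; nlinarith [H2 _ _ r]
          · rw [Sg_neg]; nlinarith [H2 _ _ r']
          · obtain rfl : i = j := by omega
            interval_cases t <;> simp [tab, η]
            nlinarith
      · obtain ⟨-, -, a, b⟩ := gk t i hi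
        rw [q6 t i t6]
        rcases hs with ⟨rfl, -⟩ | ⟨rfl, -⟩ | ⟨rfl, hj⟩ | ⟨rfl, hj⟩ <;>
          simp [Z, m, dot, t6, show t ≠ 0 by omega, show t ≠ 1 by omega, show t ≠ 2 by omega, t6.not_gt, H0]
        linarith
    obtain ⟨⟨k1, k2⟩, -⟩ := gk s j hj
    obtain ⟨u0, u1, u2, u3⟩ := gm s j hj
    have Hj := H0 j
    rw [m4 s j s4]
    have s0 : s ≠ 0 := by omega
    have s1 : s ≠ 1 := by omega
    have s2 : s ≠ 2 := by omega
    have s3 : s ≠ 3 := by omega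
    rcases (by omega : t = 0 ∧ i = 0 ∨ t = 1 ∧ i = 0 ∨ t = 2 ∧ i < M ∨ 3 ≤ t ∧ t < 8 ∧ i < E.length) with
      ⟨rfl, rfl⟩ | ⟨rfl, rfl⟩ | ⟨rfl, hi⟩ | ⟨t3, t8, hi⟩
    · simp [Z, q, dot, s0, s1, s3, Hj]
    · simp [Z, q, dot, s0, s1, s2, s3]; linarith
    · simp [Z, q, dot, s0, s1, s2, s3]
      split_ifs with r
      · exact Sg_thr.2 ⟨fun c => by nlinarith [((u3 i hi).2 c).2 r], fun c => by nlinarith [(u3 i hi).1 c]⟩
      · convert cm i _ _ hi u0 Hj using 1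
        simp only [μ, if_neg r]; ring
    have Hi := H0 i
    obtain ⟨-, ⟨a, b⟩, c, d⟩ := gk t i hi
    rcases lt_trichotomy i j with r | rfl | r
    · have := H2 _ _ r
      by_cases t6 : t < 6
      · rw [q3 t i t3 t6]
        simp [Z, dot, show t ≠ 0 by omega, show t ≠ 1 by omega, show t ≠ 2 by omega, t6.not_ge, s0, s1, s2, s3, r, r.le.not_gt]
        have e : 0 < η (t, i) * H i * κ (s, j) := by positivity
        refine Sg_thr.2 ⟨fun c => by nlinarith [((u3 _ (xl t i t3 hi)).2 c).1], fun c => ?_⟩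
        have f := (u3 _ (xl t i t3 hi)).1 c
        have g := L2 _ (List.mem_range.2 (xl t i t3 hi)) _ hb' f
        have := mul_le_mul b k2 (by linarith) (by linarith)
        nlinarith
      · rw [q6 t i (by omega)]
        simp [Z, dot, show t ≠ 0 by omega, show t ≠ 1 by omega, show t ≠ 2 by omega, not_lt.1 t6, s0, s1, s2, s3, r,
          r.le.not_gt]
        nlinarith
    · obtain ⟨e1, -, e2, -, e3⟩ := ga i hi
      have := mul_pos Hi (sub_pos.2 e1)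
      have := mul_pos Hi (sub_pos.2 e2)
      have := mul_pos Hi e3
      have := mul_pos (mul_pos Hi (sub_pos.2 e1)) (by linarith : 0 < y (gd E i).2.1)
      interval_cases t <;> interval_cases s <;> simp [Z, q, dot, tab, κ, η, lam, μ, mu, xi, y0, y1] <;> nlinarith
    · have := H2 _ _ r
      by_cases t6 : t < 6
      · rw [q3 t i t3 t6]
        simp [Z, dot, show t ≠ 0 by omega, show t ≠ 1 by omega, show t ≠ 2 by omega, t6.not_ge, s0, s1, s2, s3, r]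
        have := one_le_mul_of_one_le_of_one_le a k1
        nlinarith [mul_nonneg (bd _ (xl t i t3 hi)).1 Hj.le]
      · rw [q6 t i (by omega)]
        simp [Z, dot, show t ≠ 0 by omega, show t ≠ 1 by omega, show t ≠ 2 by omega, s0, s1, s2, s3, r]
        nlinarith
  · rintro ⟨t, i⟩ ha
    rw [mem_obs] at ha
    rcases (by omega : t = 0 ∧ i = 0 ∨ t = 1 ∧ i = 0 ∨ t = 2 ∧ i < M ∨ 3 ≤ t ∧ t < 8 ∧ i < E.length) with
      ⟨rfl, rfl⟩ | ⟨rfl, rfl⟩ | ⟨rfl, hi⟩ | ⟨t3, t8, hi⟩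
    · simp [q, m, dot]
    · simp [q, m, dot]
    · simp [q, m, dot]
      constructor <;> linarith [(bd i hi).1]
    obtain ⟨⟨k1, k2⟩, ⟨a, b⟩, c, d⟩ := gk t i hi
    obtain ⟨u0, u1, u2, u3⟩ := gm t i hi
    have := H0 i
    have := H1 i
    constructor
    · by_cases t6 : t < 6
      · rw [q3 t i t3 t6]; simp [dot]; nlinarith [(bd _ (xl t i t3 hi)).1]
      · rw [q6 t i (by omega)]; simp [dot]; linarith
    · by_cases t4 : t = 3
      · simp [m, t4, dot]; nlinarith [(ga i hi).1]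
      · rw [m4 t i (by omega)]; simp [dot]; nlinarith

abbrev N0 := Ob × Bool × Bool

def cps (a : List Unit × List Q4) : List N0 := obs a.1.length a.2.length ×ˢ ([true, false] ×ˢ [true, false])

def base (a : List Unit × List Q4) : Inst N0 :=
  (cps a, cps a, (cps a ×ˢ cps a).filter fun e => sg (Z a.2) kp kl (pp a.2) (pl a.2) e.1 e.2)

theorem pt_base : PT base := by
  have h1 : PT cps := by unfold cps obs; fun_prop
  have h2 : PT fun a : List Q4 × Ob × Ob => Z a.1 a.2.1 a.2.2 := by unfold Z cmp thr mu xi gd; fun_prop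
  have h3 : PT fun a : List Q4 × N0 × N0 => Z a.1 a.2.1.1 a.2.2.1 :=
    (h2.comp (g := fun a : List Q4 × N0 × N0 => (a.1, a.2.1.1, a.2.2.1)) (by fun_prop) :)
  have h4 : PT fun a : List Q4 × N0 × N0 => sg (Z a.1) kp kl (pp a.1) (pl a.1) a.2.1 a.2.2 :=
    PT.ite (PT.decide_eq h3 (PT.const _)) (by unfold kp kl pp pl mu xi gd; fun_prop) (PT.idecide_lt (PT.const _) h3)
  exact h1.pair (h1.pair (PT.filter
    (h4.comp (g := fun a : (List Unit × List Q4) × N0 × N0 => (a.1.2, a.2)) (by fun_prop) :) (h1.product h1)))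

theorem hard_base : Hard N0 1 := fun β _ B f hf h1 h2 => by
  have mc : ∀ a (c : N0), c ∈ cps a ↔ c.1 ∈ obs a.1.length a.2.length := fun a ⟨c, s, t⟩ => by
    cases s <;> cases t <;> simp [cps]
  have mb : ∀ a, ∀ i ∈ cps a, ∀ j ∈ cps a, ((i, j) ∈ (base a).2.2) = (sg (Z a.2) kp kl (pp a.2) (pl a.2) i j = true) :=
    fun a i hi j hj => by simp [base, hi, hj]
  refine etr_of_ifs (fun a => f (base a)) (hf.comp pt_base) fun M E m2 hE => ⟨fun ⟨y, hy⟩ => h1 _ ?_, fun b => ?_⟩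
  · obtain ⟨q, m, a1, a2⟩ := cfg_complete m2 hE hy
    obtain ⟨p, ℓ, a3, a4⟩ := cp_complete dot hz hK (w1 m2 hE) (w2 m2 hE) a1 a2
    refine ⟨fun i => -(p i).2.2 / dot (p i) (1, 1, 2), fun j => (ℓ j).1 / dot (1, 1, -1) (ℓ j),
      fun i _ => (-(p i).2.2 - (p i).2.1) / dot (p i) (1, 1, 2), fun j _ => ((ℓ j).1 - (ℓ j).2.1) / dot (1, 1, -1) (ℓ j),
      fun i hi j hj => ?_⟩
    rw [mb _ i hi j hj]
    have b1 := (a4 i ((mc _ _).1 hi)).1
    have b2 := (a4 j ((mc _ _).1 hj)).2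
    refine S.of_mul (mul_pos b1 b2) ?_
    convert a3 i j ((mc _ _).1 hi) ((mc _ _).1 hj) using 1
    simp only [dotProduct, Fin.sum_univ_one]
    field_simp
    simp [dot]; ring
  · obtain ⟨V, _, _, _, r, p, ℓ, k⟩ := h2 _ b
    obtain ⟨q, m, c⟩ := cp_sound (Module.Dual.eval ℝ V) hz hK (p := p) (ℓ := ℓ) fun a b c d =>
      mb (M, E) a ((mc _ _).2 c) b ((mc _ _).2 d) ▸ k a ((mc _ _).2 c) b ((mc _ _).2 d)
    exact cfg_sound r m2 hE c

theorem hard (m : ℕ) : ∃ (N : Type) (_ : Enc N) (_ : Inhabited N), Hard N (m + 1) := by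
  induction m with
  | zero => exact ⟨N0, inferInstance, inferInstance, hard_base⟩
  | succ m ih =>
    obtain ⟨N, _, _, h⟩ := ih
    exact ⟨Bool × N, inferInstance, inferInstance, h.succ⟩

end Pool.Agent.Lib.SG
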