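import Pool.Agent.Lib.helper15.Sg4
import Pool.Agent.Lib.lead.CXGraphRed

/-! Graphs represented by points with a polynomial adjacency condition. -/

namespace Pool.Agent.Lib.SG

open Pool.Agent.Lib.CX Pool.Agent.Lib.ER

set_option synthInstance.maxSize 4000

def Rep {X : Type} (P : X → Prop) (R : X → X → Prop) (a : Gr) : Prop :=
  ∃ c : Fin a.n → X, (∀ u, P (c u)) ∧ ∀ u v, u ≠ v → (a.G.Adj u v ↔ R (c u) (c v))

def gr {W : Type} [DecidableEq W] (vs : List (ℕ × W)) (r : ℕ × W → ℕ × W → Bool) : Gr :=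
  mkGr vs ((vs ×ˢ vs).filter fun e => decide (e.1.1 ≤ e.2.1) && r e.1 e.2)

theorem rep_gr {W X : Type} [DecidableEq W] [Inhabited X] {vs : List (ℕ × W)} {r : ℕ × W → ℕ × W → Bool} {P : X → Prop}
    {R : X → X → Prop} (hr : ∀ u v : ℕ × W, u.1 = v.1 → r u v) (hR : ∀ x y, R x y → R y x) : Rep P R (gr vs r) ↔
    ∃ c : ℕ × W → X, (∀ u ∈ vs, P (c u)) ∧ ∀ u ∈ vs, ∀ v ∈ vs, u.1 ≤ v.1 → u ≠ v → (r u v ↔ R (c u) (c v)) := by
  let e := mkGrIso vs ((vs ×ˢ vs).filter fun e => decide (e.1.1 ≤ e.2.1) && r e.1 e.2)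
  have ad : ∀ u v, (e u).1.1 ≤ (e v).1.1 → u ≠ v → ((gr vs r).G.Adj u v ↔ r (e u).1 (e v).1) := fun u v h q => by
    refine e.map_rel_iff.symm.trans ?_
    have a : (e u).1 ∈ vs := (e u).2
    have b : (e v).1 ∈ vs := (e v).2
    have c : (e u).1 ≠ (e v).1 := fun t => q (e.injective (Subtype.ext t))
    simp only [SimpleGraph.comap_adj, Function.Embedding.subtype_apply, SimpleGraph.fromRel_adj, List.mem_filter,
      List.mem_product, a, b, c, h, ne_eq, not_false_eq_true, true_and, decide_true, Bool.true_and, Bool.and_eq_true,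
      decide_eq_true_eq, or_iff_left_iff_imp]
    exact fun t => hr _ _ (le_antisymm h t.1)
  constructor
  · rintro ⟨c, h1, h2⟩
    refine ⟨fun v => if hv : v ∈ vs then c (e.symm ⟨v, hv⟩) else default, fun u hu => by simp only [hu, dif_pos, h1],
      fun u hu v hv a b => ?_⟩
    have q : e.symm ⟨u, hu⟩ ≠ e.symm ⟨v, hv⟩ := fun t => b (congrArg Subtype.val (e.symm.injective t))
    simp only [hu, hv, dif_pos]
    rw [← h2 _ _ q, ad _ _ (by simpa using a) q]
    simp
  · rintro ⟨c, h1, h2⟩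
    have k : ∀ u v, (e u).1.1 ≤ (e v).1.1 → u ≠ v → ((gr vs r).G.Adj u v ↔ R (c (e u).1) (c (e v).1)) := fun u v a b =>
      (ad u v a b).trans (h2 _ (e u).2 _ (e v).2 a fun t => b (e.injective (Subtype.ext t)))
    refine ⟨fun i => c (e i).1, fun u => h1 _ (e u).2, fun u v q => ?_⟩
    rcases le_total (e u).1.1 (e v).1.1 with a | a
    · exact k u v a q
    · exact (SimpleGraph.adj_comm _ _ _).trans ((k v u a q.symm).trans ⟨hR _ _, hR _ _⟩)

instance : Enc Tm := ⟨fun f => Enc.tr f.toks, fun f g h => (Tm.toks_append f g [] [] (by rw [Enc.inj h])).1⟩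

def conj (l : List Fm) : Fm := l.foldr .and (.eq (.num 0) (.num 0))

theorem conj_holds (l : List Fm) (x) : (conj l).Holds x ↔ ∀ f ∈ l, f.Holds x := by
  induction l with
  | nil => simp [conj, Fm.Holds]
  | cons f l ih => simp only [conj, List.foldr_cons, Fm.Holds, List.forall_mem_cons] at *; rw [ih]

section
variable {α : Type} [Enc α] {s t : α → Tm} {f g : α → Fm}

theorem pt_tt (h : PT s) : PT fun a => (s a).toks := h.cast fun _ => rfl
theorem pt_ff (h : PT f) : PT fun a => (f a).toks := h.cast fun _ => rfl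
theorem pt_ofT (h : PT fun a => (s a).toks) : PT s := h.cast fun _ => rfl
theorem pt_ofF (h : PT fun a => (f a).toks) : PT f := h.cast fun _ => rfl
@[fun_prop] theorem pt_var {i : α → ℕ} (h : PT i) : PT fun a => Tm.var (i a) :=
  pt_ofT (by simp only [Tm.toks]; fun_prop)
@[fun_prop] theorem pt_add (h : PT s) (h' : PT t) : PT fun a => Tm.add (s a) (t a) :=
  pt_ofT ((PT.const _).cons ((pt_tt h).append (pt_tt h')))
@[fun_prop] theorem pt_mul (h : PT s) (h' : PT t) : PT fun a => Tm.mul (s a) (t a) :=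
  pt_ofT ((PT.const _).cons ((pt_tt h).append (pt_tt h')))
@[fun_prop] theorem pt_eq (h : PT s) (h' : PT t) : PT fun a => Fm.eq (s a) (t a) :=
  pt_ofF ((PT.const _).cons ((pt_tt h).append (pt_tt h')))
@[fun_prop] theorem pt_lt (h : PT s) (h' : PT t) : PT fun a => Fm.lt (s a) (t a) :=
  pt_ofF ((PT.const _).cons ((pt_tt h).append (pt_tt h')))
@[fun_prop] theorem pt_le (h : PT s) (h' : PT t) : PT fun a => Fm.le (s a) (t a) :=
  pt_ofF ((PT.const _).cons ((pt_tt h).append (pt_tt h')))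
@[fun_prop] theorem pt_not (h : PT f) : PT fun a => Fm.not (f a) := pt_ofF ((PT.const _).cons (pt_ff h))
@[fun_prop] theorem pt_and (h : PT f) (h' : PT g) : PT fun a => Fm.and (f a) (g a) :=
  pt_ofF ((PT.const _).cons ((pt_ff h).append (pt_ff h')))
@[fun_prop] theorem pt_conj {l : α → List Fm} (h : PT l) : PT fun a => conj (l a) :=
  pt_ofF (((PT.flatMap (F := fun _ (f : Fm) => (8, 0) :: f.toks) ((PT.const _).cons (pt_ff (by fun_prop))) h).append
    (PT.const [(4, 0), (1, 0), (1, 0)])).congr fun a => by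
      generalize l a = l
      induction l with
      | nil => rfl
      | cons f l ih =>
        simp only [conj, List.foldr_cons, Fm.toks, List.flatMap_cons, List.cons_append, List.append_assoc] at *; rw [ih])

def dt (i j : ℕ) : ℕ → Tm
  | 0 => .num 0
  | k + 1 => .add (dt i j k) (.mul (.var (i + k)) (.var (j + k)))

theorem pt_dt {i j : α → ℕ} (h : PT i) (h' : PT j) (k : ℕ) : PT fun a => dt (i a) (j a) k := by
  induction k with
  | zero => exact PT.const _
  | succ k ih => exact pt_add ih (by fun_prop)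

end

theorem dt_eval (x i j k) : (dt i j k).eval x = (fun t : Fin k => x (i + t)) ⬝ᵥ fun t => x (j + t) := by
  induction k with
  | zero => simp [dt, Tm.eval]
  | succ k ih => simp [dt, Tm.eval, ih, dotProduct, Fin.sum_univ_castSucc]

abbrev Pt (d : ℕ) := ℝ × (Fin d → ℝ)

def pt (d : ℕ) (x : ℕ → ℝ) (u : ℕ) : Pt d := (x (1 + (d + 1) * u), fun t => x (2 + (d + 1) * u + t))

theorem rep_memb {d} {Q : ℝ → Prop} {P : Pt d → Prop} {R : ℝ → Pt d → Pt d → Prop} {χ : Fm} {ψ : ℕ → Fm}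
    {φ : ℕ × ℕ → Fm} (p1 : PT ψ) (p2 : PT φ) (h0 : ∀ x, χ.Holds x ↔ Q (x 0)) (h1 : ∀ x u, (ψ u).Holds x ↔ P (pt d x u))
    (h2 : ∀ x u v, (φ (u, v)).Holds x ↔ R (x 0) (pt d x u) (pt d x v)) : Red (fun a => ∃ K, Q K ∧ Rep P (R K) a) ETR := by
  refine ⟨fun a => conj (χ :: ((List.range a.n).map ψ ++ ((List.range a.n ×ˢ List.range a.n).filter fun e =>
    decide (e.1 ≠ e.2)).map fun e => if a.adjB e.1 e.2 then φ e else .not (φ e))), by fun_prop, fun a => ?_⟩
  have k : ∀ x, (conj (χ :: ((List.range a.n).map ψ ++ ((List.range a.n ×ˢ List.range a.n).filter fun e =>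
      decide (e.1 ≠ e.2)).map fun e => if a.adjB e.1 e.2 then φ e else .not (φ e)))).Holds x ↔ Q (x 0) ∧
      (∀ u : Fin a.n, P (pt d x u)) ∧ ∀ u v : Fin a.n, u ≠ v → (a.G.Adj u v ↔ R (x 0) (pt d x u) (pt d x v)) := fun x => by
    have : ∀ u v, (if a.adjB u v then φ (u, v) else .not (φ (u, v))).Holds x ↔
        (a.adjB u v ↔ R (x 0) (pt d x u) (pt d x v)) := fun u v => by split_ifs with c <;> simp [Fm.Holds, h2, c]
    simp only [conj_holds, List.forall_mem_cons, List.forall_mem_append, List.forall_mem_map, h0, h1, List.mem_range,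
      List.mem_filter, Prod.forall, List.mem_product, this, decide_eq_true_eq, ← Gr.adjB_iff]
    exact and_congr_right fun _ => and_congr ⟨fun h u => h u u.2, fun h u b => h ⟨u, b⟩⟩
      ⟨fun h u v b => h u v ⟨⟨u.2, v.2⟩, fun c => b (Fin.ext c)⟩,
        fun h u v b => h ⟨u, b.1.1⟩ ⟨v, b.1.2⟩ fun c => b.2 (congrArg Fin.val c)⟩
  constructor
  · rintro ⟨K, q, c, h⟩
    let c' : ℕ → Pt d := fun u => if h : u < a.n then c ⟨u, h⟩ else 0
    let x : ℕ → ℝ := fun i => if i = 0 then K else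
      (Fin.cons (c' ((i - 1) / (d + 1))).1 (c' ((i - 1) / (d + 1))).2 : Fin (d + 1) → ℝ) ⟨(i - 1) % (d + 1),
        Nat.mod_lt _ d.succ_pos⟩
    have e : ∀ u (t : Fin (d + 1)), x (1 + (d + 1) * u + t) = (Fin.cons (c' u).1 (c' u).2 : Fin (d + 1) → ℝ) t :=
      fun u t => by
        have a1 : (1 + (d + 1) * u + t - 1) / (d + 1) = u := by
          rw [add_assoc, Nat.add_sub_cancel_left, Nat.mul_add_div d.succ_pos, Nat.div_eq_of_lt t.2, add_zero]
        have a2 : (1 + (d + 1) * u + t - 1) % (d + 1) = t := by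
          rw [add_assoc, Nat.add_sub_cancel_left, Nat.mul_add_mod, Nat.mod_eq_of_lt t.2]
        simp only [x, a1, a2]
        rw [if_neg (by omega)]
    have e' : ∀ u : Fin a.n, pt d x u = c u := fun u => by
      have : c' u = c u := dif_pos u.2
      refine Prod.ext (by simpa [this, pt] using e u 0) (funext fun t => ?_)
      have := e u t.succ
      simp only [Fin.cons_succ, Fin.val_succ] at this
      simp only [pt, *]
      rw [← ‹c' u = c u›, ← this]; congr 1; omega
    exact ⟨x, (k x).2 (by simpa only [e'] using ⟨q, h⟩)⟩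
  · rintro ⟨x, h⟩
    exact ⟨_, ((k x).1 h).1, _, ((k x).1 h).2⟩

end Pool.Agent.Lib.SG
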